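import Pool.Agent.Helper73.KP.LapE

/-! Project KP, module LAP, part F: the cutoff function. -/

set_option autoImplicit false

namespace Pool.Agent.Helper73.KP

open Pool.Agent.Helper52.KP hiding sq
open Pool.Agent.Helper98.KP (hCAL)
open MeasureTheory Filter
open scoped ContDiff ComplexOrder Topology

section Chi

variable {m : ℕ}

/-- the cutoff -/
noncomputable def chi (w : Fin m → ℕ) (l : Fin m) (z₀ : Fin m → ℂ) (ρ : ℝ) (z : Fin m → ℂ) : ℝ :=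
  if z l = 0 then 0 else Real.smoothTransition (2 - 4 * (sn (et w l z₀ z) / ρ ^ 2))

theorem chi_bd (w : Fin m → ℕ) (l : Fin m) (z₀ : Fin m → ℂ) (ρ : ℝ) (z : Fin m → ℂ) :
    0 ≤ chi w l z₀ ρ z ∧ chi w l z₀ ρ z ≤ 1 := by
  unfold chi
  split_ifs
  · exact ⟨le_refl _, zero_le_one⟩
  · exact ⟨Real.smoothTransition.nonneg _, Real.smoothTransition.le_one _⟩

theorem chi_scl (w : Fin m → ℕ) (l : Fin m) (hl : w l = 1) (z₀ : Fin m → ℂ) (ρ : ℝ)
    (z : Fin m → ℂ) (a : ℂ) (ha : a ≠ 0) : chi w l z₀ ρ (scl w a z) = chi w l z₀ ρ z := by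
  unfold chi
  rw [et_scl w l hl z₀ z a ha]
  have h1 : (scl w a z l = 0) ↔ (z l = 0) := by
    unfold scl
    rw [hl, pow_one, mul_eq_zero]
    exact ⟨fun h => h.resolve_left ha, fun h => Or.inr h⟩
  simp only [h1]

theorem chi_one (w : Fin m → ℕ) (l : Fin m) (z₀ : Fin m → ℂ) (ρ : ℝ) (hρ : 0 < ρ)
    (z : Fin m → ℂ) (hz : z l ≠ 0) (h : sn (et w l z₀ z) < ρ ^ 2 / 4) : chi w l z₀ ρ z = 1 := by
  unfold chi
  rw [if_neg hz]
  apply Real.smoothTransition.one_of_one_le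
  have h1 : sn (et w l z₀ z) / ρ ^ 2 ≤ 1 / 4 := by
    rw [div_le_iff₀ (by positivity)]
    linarith
  linarith

theorem chi_zero' (w : Fin m → ℕ) (l : Fin m) (z₀ : Fin m → ℂ) (ρ : ℝ) (hρ : 0 < ρ)
    (z : Fin m → ℂ) (h : ρ ^ 2 / 2 ≤ sn (et w l z₀ z)) : chi w l z₀ ρ z = 0 := by
  unfold chi
  split_ifs
  · rfl
  · apply Real.smoothTransition.zero_of_nonpos
    have h1 : 1 / 2 ≤ sn (et w l z₀ z) / ρ ^ 2 := by
      rw [le_div_iff₀ (by positivity)]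
      linarith
    linarith

theorem chi_zero (w : Fin m → ℕ) (l : Fin m) (z₀ : Fin m → ℂ) (hz₀ : z₀ l ≠ 0)
    (ρ : ℝ) (hρ : 0 < ρ) (z : Fin m → ℂ) (hz : ∃ j, w j = 1 ∧ z j ≠ 0)
    (h : ¬(z l ≠ 0 ∧ sn (et w l z₀ z) < ρ ^ 2)) : ∀ᶠ x in 𝓝 z, chi w l z₀ ρ x = 0 := by
  by_cases hzl : z l = 0
  · obtain ⟨j, hj, hzj⟩ := hz
    have hn : 0 < ‖z₀ l‖ := norm_pos_iff.2 hz₀
    have ho : IsOpen {x : Fin m → ℂ | (ρ + ‖z₀ j‖) * ‖x l‖ < ‖z₀ l‖ * ‖x j‖} := by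
      apply isOpen_lt
      · exact continuous_const.mul (continuous_apply l).norm
      · exact continuous_const.mul (continuous_apply j).norm
    have hm : z ∈ {x : Fin m → ℂ | (ρ + ‖z₀ j‖) * ‖x l‖ < ‖z₀ l‖ * ‖x j‖} := by
      change (ρ + ‖z₀ j‖) * ‖z l‖ < ‖z₀ l‖ * ‖z j‖
      rw [hzl, norm_zero, mul_zero]
      exact mul_pos hn (norm_pos_iff.2 hzj)
    filter_upwards [ho.mem_nhds hm] with x hx
    by_cases hxl : x l = 0
    · unfold chi
      rw [if_pos hxl]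
    · apply chi_zero' w l z₀ ρ hρ
      have hxn : 0 < ‖x l‖ := norm_pos_iff.2 hxl
      have h1 : ρ ≤ ‖et w l z₀ x j‖ := by
        unfold et
        rw [hj, pow_one]
        have h2 : ‖z₀ l / x l * x j‖ - ‖z₀ j‖ ≤ ‖z₀ l / x l * x j - z₀ j‖ := norm_sub_norm_le _ _
        have h3 : ρ + ‖z₀ j‖ ≤ ‖z₀ l / x l * x j‖ := by
          rw [norm_mul, norm_div, div_mul_eq_mul_div, le_div_iff₀ hxn]
          exact (le_of_lt hx)
        linarith
      have h2 := le_sn (et w l z₀ x) j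
      have h3 : ρ ^ 2 ≤ ‖et w l z₀ x j‖ ^ 2 := pow_le_pow_left₀ hρ.le h1 2
      have h4 : 0 < ρ ^ 2 := by positivity
      linarith
  · have h1 : ρ ^ 2 ≤ sn (et w l z₀ z) := by
      by_contra h2
      exact h ⟨hzl, not_le.1 h2⟩
    have hc : ContinuousAt (fun x => sn (et w l z₀ x)) z :=
      continuous_sn.continuousAt.comp (et_contDiffAt w l z₀ z hzl).continuousAt
    have h4 : 0 < ρ ^ 2 := by positivity
    have h5 : ρ ^ 2 / 2 < sn (et w l z₀ z) := by linarith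
    filter_upwards [hc.eventually_const_lt h5] with x hx
    exact chi_zero' w l z₀ ρ hρ x hx.le

theorem chi_contDiffAt (w : Fin m → ℕ) (l : Fin m) (z₀ : Fin m → ℂ) (hz₀ : z₀ l ≠ 0)
    (ρ : ℝ) (hρ : 0 < ρ) (z : Fin m → ℂ) (hz : ∃ j, w j = 1 ∧ z j ≠ 0) :
    ContDiffAt ℝ ∞ (chi w l z₀ ρ) z := by
  by_cases h : z l ≠ 0 ∧ sn (et w l z₀ z) < ρ ^ 2
  · have h1 : ContDiffAt ℝ ∞ (fun x => Real.smoothTransition
        (2 - 4 * (sn (et w l z₀ x) / ρ ^ 2))) z := by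
      apply Real.smoothTransition.contDiffAt.comp
      have h2 : ContDiffAt ℝ ∞ (fun x => sn (et w l z₀ x)) z :=
        sn_contDiff.contDiffAt.comp z (et_contDiffAt w l z₀ z h.1)
      exact contDiffAt_const.sub (contDiffAt_const.mul (h2.div_const _))
    refine h1.congr_of_eventuallyEq ?_
    have ho : IsOpen {x : Fin m → ℂ | x l ≠ 0} := isOpen_ne_fun (continuous_apply l) continuous_const
    filter_upwards [ho.mem_nhds h.1] with x hx
    unfold chi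
    rw [if_neg hx]
  · have h1 : (chi w l z₀ ρ) =ᶠ[𝓝 z] fun _ => 0 := chi_zero w l z₀ hz₀ ρ hρ z hz h
    exact contDiffAt_const.congr_of_eventuallyEq h1

end Chi

theorem compact_slice {m : ℕ} (l : Fin m) (z₀ : Fin m → ℂ) (ρ : ℝ) (hρ : 0 < ρ) :
    IsCompact ((fun η => z₀ + η) '' {η : Fin m → ℂ | η l = 0 ∧ sn η ≤ ρ ^ 2}) := by
  apply IsCompact.image
  · apply Metric.isCompact_of_isClosed_isBounded
    · exact (isClosed_eq (continuous_apply l) continuous_const).inter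
        (isClosed_le continuous_sn continuous_const)
    · rw [Metric.isBounded_iff_subset_closedBall 0]
      refine ⟨ρ, ?_⟩
      rintro ξ ⟨_, h⟩
      rw [mem_closedBall_zero_iff]
      exact norm_le_of_sn hρ.le h
  · exact continuous_const.add continuous_id

theorem grad_bd {C : Cone} (hC : Good C) (z₀ : Fin C.m → ℂ) (l : Fin C.m) (hl : C.w l = 1)
    (hz₀ : z₀ l ≠ 0) (ρ : ℝ) (hρ : 0 < ρ) (c₁ : ℝ) (hc₁ : 0 < c₁)
    (h : ∀ η : Fin C.m → ℂ, η l = 0 → sn η ≤ ρ ^ 2 → z₀ + η ∈ C.U ∧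
      ∀ ξ, c₁ * sn ξ ≤ hf (hes C.u (z₀ + η)) ξ) :
    ∃ B : ℝ, 0 < B ∧ ∀ z ∈ C.U, ∀ ξ,
      ‖∑ j, db j (cf (chi C.w l z₀ ρ)) z * star (ξ j)‖ ^ 2 * C.u z ≤ B * hf (hes C.u z) ξ := by
  have hU := isOpen_U C
  obtain ⟨χ, hχd⟩ : ∃ χ, χ = chi C.w l z₀ ρ := ⟨_, rfl⟩
  rw [← hχd]
  have hχ : ContDiffOn ℝ ∞ χ C.U := by
    intro z hz
    rw [hχd]
    exact (chi_contDiffAt C.w l z₀ hz₀ ρ hρ z (exists_l hC hz)).contDiffWithinAt
  have hχs : ∀ z ∈ C.U, ∀ a : ℂ, a ≠ 0 → χ (scl C.w a z) = χ z := by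
    intro z _ a ha
    rw [hχd]
    exact chi_scl C.w l hl z₀ ρ z a ha
  have hdb : ∀ j, ContinuousOn (db j (cf χ)) C.U := fun j =>
    ((hCAL C.m j j (cf χ) (cf χ) z₀).2.2.2.2 C.U hU (cf_contDiffOn hχ)).2.continuousOn
  obtain ⟨K, hK⟩ : ∃ K, K = (fun η => z₀ + η) '' {η : Fin C.m → ℂ | η l = 0 ∧ sn η ≤ ρ ^ 2} :=
    ⟨_, rfl⟩
  have hKc : IsCompact K := by rw [hK]; exact compact_slice l z₀ ρ hρ
  have hKU : K ⊆ C.U := by
    rw [hK]
    rintro _ ⟨η, hη, rfl⟩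
    exact (h η hη.1 hη.2).1
  have hcont : ContinuousOn (fun y => sn (fun j => db j (cf χ) y) * C.u y) K := by
    apply ContinuousOn.mul
    · refine continuous_sn.comp_continuousOn ?_
      rw [continuousOn_pi]
      intro j
      exact (hdb j).mono hKU
    · exact hC.usm.continuousOn.mono hKU
  obtain ⟨B₀, hB₀⟩ := hKc.exists_bound_of_continuousOn hcont
  have hB₀' : ∀ y ∈ K, sn (fun j => db j (cf χ) y) * C.u y ≤ |B₀| := fun y hy =>
    (le_trans (le_abs_self _) (hB₀ y hy)).trans (le_abs_self _)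
  refine ⟨(|B₀| + 1) / c₁, by positivity, ?_⟩
  intro z hz
  by_cases hW : z l ≠ 0 ∧ sn (et C.w l z₀ z) < ρ ^ 2
  · have he : et C.w l z₀ z l = 0 := et_l C.w l hl z₀ z hW.1
    have hy := h (et C.w l z₀ z) he hW.2.le
    have ha : z l / z₀ l ≠ 0 := div_ne_zero hW.1 hz₀
    have hyK : z₀ + et C.w l z₀ z ∈ K := by
      rw [hK]
      exact ⟨_, ⟨he, hW.2.le⟩, rfl⟩
    have key := grad_scl hC χ hχ hχs hy.1 (z l / z₀ l) ha ((|B₀| + 1) / c₁) ?_
    · rw [scl_et C.w l z₀ z hW.1 hz₀] at key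
      exact key
    · intro ξ
      have hu := upos hC hy.1
      have h1 := cs_sn (fun j => db j (cf χ) (z₀ + et C.w l z₀ z)) ξ
      have h2 := hB₀' _ hyK
      have h3 := hy.2 ξ
      have hs := sn_nonneg ξ
      calc ‖∑ j, db j (cf χ) (z₀ + et C.w l z₀ z) * star (ξ j)‖ ^ 2 * C.u (z₀ + et C.w l z₀ z)
          ≤ (sn (fun j => db j (cf χ) (z₀ + et C.w l z₀ z)) * sn ξ) * C.u (z₀ + et C.w l z₀ z) :=
            mul_le_mul_of_nonneg_right h1 hu.le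
        _ = (sn (fun j => db j (cf χ) (z₀ + et C.w l z₀ z)) * C.u (z₀ + et C.w l z₀ z)) * sn ξ := by
            ring
        _ ≤ |B₀| * sn ξ := mul_le_mul_of_nonneg_right h2 hs
        _ ≤ (|B₀| + 1) * sn ξ := by nlinarith
        _ = (|B₀| + 1) / c₁ * (c₁ * sn ξ) := by field_simp
        _ ≤ (|B₀| + 1) / c₁ * hf (hes C.u (z₀ + et C.w l z₀ z)) ξ :=
            mul_le_mul_of_nonneg_left h3 (by positivity)
  · intro ξ
    have h0 : (cf χ) =ᶠ[𝓝 z] fun _ => 0 := by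
      have h1 := chi_zero C.w l z₀ hz₀ ρ hρ z (exists_l hC hz) hW
      filter_upwards [h1] with x hx
      unfold cf
      rw [hχd, hx, Complex.ofReal_zero]
    have hd0 : ∀ j, db j (cf χ) z = 0 := by
      intro j
      rw [db_congr h0 j]
      unfold db
      simp
    simp only [hd0, zero_mul, Finset.sum_const_zero, norm_zero]
    have h2 : 0 ≤ hf (hes C.u z) ξ := by
      by_cases hξ : ξ = 0
      · rw [hξ, hf_zero]
      · exact ((hC.uhes z hz).1.2 ξ hξ).le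
    have h3 : 0 ≤ (|B₀| + 1) / c₁ := by positivity
    rw [zero_pow two_ne_zero, zero_mul]
    exact mul_nonneg h3 h2

end Pool.Agent.Helper73.KP
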