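import Pool.Agent.Helper73.KP.LapC
import Pool.Agent.Helper73.KP.LapF

/-! Project KP (MP_26be5b_ag), module LAP: local model near a point. -/

set_option autoImplicit false

namespace Pool.Agent.Helper73.KP

open Pool.Agent.Helper52.KP hiding sq
open Pool.Agent.Helper98.KP (hCAL)
open MeasureTheory Filter
open scoped ContDiff ComplexOrder Topology

theorem choose_e (ε : ℝ) (hε : 0 < ε) (N : ℕ) :
    ∃ e : ℝ, 0 < e ∧ e < 1 / 2 ∧ (1 + e) / (1 - e) ^ N ≤ 1 + ε := by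
  have hc : ContinuousAt (fun e : ℝ => (1 + e) / (1 - e) ^ N) 0 := by
    apply ContinuousAt.div
    · fun_prop
    · fun_prop
    · simp
  have h1 : (fun e : ℝ => (1 + e) / (1 - e) ^ N) 0 < 1 + ε := by
    simp [hε]
  have h2 := hc.eventually_lt_const h1
  obtain ⟨r, hr, hball⟩ := Metric.eventually_nhds_iff.1 h2
  refine ⟨min (r / 2) (1 / 4), by positivity, ?_, ?_⟩
  · exact lt_of_le_of_lt (min_le_right _ _) (by norm_num)
  · apply le_of_lt
    apply hball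
    rw [Real.dist_eq, sub_zero, abs_of_pos (by positivity)]
    exact lt_of_le_of_lt (min_le_left _ _) (by linarith)

theorem final_calc (k j : ℕ) (hj : 0 < j) (e u J2 : ℝ) (he : e < 1 / 2) (hu : 0 < u) (hJ : 0 < J2) :
    (1 + e) * J2 * (2 * Real.pi / ((k + 1 : ℕ) : ℝ) * (1 / ((1 - e) * u)) ^ (k + 1) *
      (Real.pi ^ k / (4 * (2 * j * (1 - e)) ^ k * (J2 / u ^ (k + 1))))) =
    (1 + e) / (1 - e) ^ (2 * k + 1) * ((Real.pi / 2) ^ (k + 1) / (((k + 1 : ℕ) : ℝ) * (j : ℝ) ^ k)) := by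
  have h1 : 0 < 1 - e := by linarith
  have h2 : (0 : ℝ) < j := by exact_mod_cast hj
  have h3 : (0 : ℝ) < ((k + 1 : ℕ) : ℝ) := by positivity
  rw [mul_pow (2 * (j : ℝ)) (1 - e) k, mul_pow (2 : ℝ) (j : ℝ) k, one_div, inv_pow, mul_pow,
    div_pow, show 2 * k + 1 = k + (k + 1) by ring, pow_add (1 - e) k (k + 1), pow_succ (2 : ℝ) k,
    pow_succ Real.pi k]
  field_simp
  ring

theorem final_le (M j : ℕ) (hM : 0 < M) (hj : 0 < j) (e ε u J2 : ℝ) (he : e < 1 / 2)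
    (hu : 0 < u) (hJ : 0 < J2) (heε : (1 + e) / (1 - e) ^ (2 * (M - 1) + 1) ≤ 1 + ε) :
    (1 + e) * J2 * (2 * Real.pi / (M : ℝ) * (1 / ((1 - e) * u)) ^ M *
      (Real.pi ^ (M - 1) / (4 * (2 * j * (1 - e)) ^ (M - 1) * (J2 / u ^ M)))) ≤
    (1 + ε) * (Real.pi / 2) ^ M / (M * (j : ℝ) ^ (M - 1)) := by
  obtain ⟨k, rfl⟩ : ∃ k, M = k + 1 := ⟨M - 1, by omega⟩
  rw [Nat.add_sub_cancel] at heε ⊢
  rw [final_calc k j hj e u J2 he hu hJ, mul_div_assoc (1 + ε)]
  exact mul_le_mul_of_nonneg_right heε (by positivity)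

theorem hLAP (hg : StGAU) : StLAP := by
  intro C hC z₀ hz₀ ε hε
  obtain ⟨l, hl, hz₀l⟩ := exists_l hC hz₀
  obtain ⟨q, hq, hq0, hqt⟩ := tay (lu C) z₀ ((lu_contDiffAt hC hz₀).of_le
    (by norm_cast))
  obtain ⟨c₀, hc₀, hc₀L⟩ := slice_pos hC hz₀ l hl hz₀l
  obtain ⟨c₁, hc₁, hc₁ev⟩ := hes_lower hC hz₀
  obtain ⟨e, he0, he1, heε⟩ := choose_e ε hε (2 * (C.m - 1) + 1)
  obtain ⟨L, hL⟩ : ∃ L, L = hf (hes (lu C) z₀) := ⟨_, rfl⟩
  rw [← hL] at hc₀L hqt
  have hLc : Continuous L := by rw [hL]; exact continuous_hf _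
  have hU := isOpen_U C
  have hu₀ := upos hC hz₀
  have hJ₀ : 0 < ‖ev C.J z₀‖ := norm_pos_iff.2 (hC.J0 z₀ hz₀)
  have hn₀ : 0 < ‖z₀ l‖ := norm_pos_iff.2 hz₀l
  have hm2 : C.m = 2 * C.n := hC.hm
  have hn := hC.hn
  -- neighbourhood
  have hadd : Tendsto (fun η : Fin C.m → ℂ => z₀ + η) (𝓝 0) (𝓝 z₀) := by
    have h1 : Continuous (fun η : Fin C.m → ℂ => z₀ + η) := continuous_const.add continuous_id
    have h2 := h1.tendsto 0
    rwa [add_zero] at h2
  have P1 := hqt (e * c₀) (by positivity)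
  have P2 : ∀ᶠ η in 𝓝 (0 : Fin C.m → ℂ), z₀ + η ∈ C.U := hadd.eventually (hU.mem_nhds hz₀)
  have P3 : ∀ᶠ η in 𝓝 (0 : Fin C.m → ℂ), (1 - e) * C.u z₀ < C.u (z₀ + η) := by
    have h1 : (1 - e) * C.u z₀ < C.u z₀ := by nlinarith
    exact hadd.eventually ((u_contDiffAt hC hz₀).continuousAt.eventually_const_lt h1)
  have hJc : Continuous fun x : Fin C.m → ℂ => ev C.J x := MvPolynomial.continuous_eval _
  have P4 : ∀ᶠ η in 𝓝 (0 : Fin C.m → ℂ), ‖ev C.J (z₀ + η)‖ ^ 2 < (1 + e) * ‖ev C.J z₀‖ ^ 2 := by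
    have h1 : ‖ev C.J z₀‖ ^ 2 < (1 + e) * ‖ev C.J z₀‖ ^ 2 := by
      have : 0 < ‖ev C.J z₀‖ ^ 2 := by positivity
      nlinarith
    exact hadd.eventually ((hJc.norm.pow 2).continuousAt.eventually_lt_const h1)
  have P5 : ∀ᶠ η in 𝓝 (0 : Fin C.m → ℂ), ∀ ξ, c₁ * sn ξ ≤ hf (hes C.u (z₀ + η)) ξ :=
    hadd.eventually hc₁ev
  obtain ⟨r, hr, hball⟩ := Metric.eventually_nhds_iff.1 (P1.and (P2.and (P3.and (P4.and P5))))
  obtain ⟨ρ, hρd⟩ : ∃ ρ, ρ = r / 2 := ⟨_, rfl⟩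
  have hρ : 0 < ρ := by rw [hρd]; positivity
  have hin : ∀ η : Fin C.m → ℂ, sn η ≤ ρ ^ 2 → dist η 0 < r := by
    intro η hη
    rw [dist_zero_right]
    have := norm_le_of_sn hρ.le hη
    linarith
  obtain ⟨W, hW⟩ : ∃ W : Set (Fin C.m → ℂ), W = {z | z l ≠ 0 ∧ sn (et C.w l z₀ z) < ρ ^ 2} :=
    ⟨_, rfl⟩
  obtain ⟨W', hW'⟩ : ∃ W : Set (Fin C.m → ℂ), W = {z | z l ≠ 0 ∧ sn (et C.w l z₀ z) < ρ ^ 2 / 4} :=
    ⟨_, rfl⟩
  obtain ⟨F, hF⟩ : ∃ F : (Fin C.m → ℂ) → ℂ, F = fun z => (z l / z₀ l) *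
    Complex.exp (q (et C.w l z₀ z)) := ⟨_, rfl⟩
  have hopen : ∀ s : ℝ, IsOpen {z : Fin C.m → ℂ | z l ≠ 0 ∧ sn (et C.w l z₀ z) < s} := by
    intro s
    have ho : IsOpen {x : Fin C.m → ℂ | x l ≠ 0} :=
      isOpen_ne_fun (continuous_apply l) continuous_const
    have hco : ContinuousOn (fun x => sn (et C.w l z₀ x)) {x : Fin C.m → ℂ | x l ≠ 0} := by
      intro x hx
      exact (continuous_sn.continuousAt.comp
        (et_contDiffAt C.w l z₀ x hx).continuousAt).continuousWithinAt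
    exact hco.isOpen_inter_preimage ho isOpen_Iio
  -- properties of points of `W`
  have hWp : ∀ z ∈ W, z l ≠ 0 ∧ et C.w l z₀ z l = 0 ∧ z₀ + et C.w l z₀ z ∈ C.U ∧
      (lu C (z₀ + et C.w l z₀ z) - (q (et C.w l z₀ z)).re - L (et C.w l z₀ z) ≤
        e * c₀ * sn (et C.w l z₀ z) ∧
      -(e * c₀ * sn (et C.w l z₀ z)) ≤
        lu C (z₀ + et C.w l z₀ z) - (q (et C.w l z₀ z)).re - L (et C.w l z₀ z)) ∧
      (1 - e) * C.u z₀ < C.u (z₀ + et C.w l z₀ z) ∧
      ‖ev C.J (z₀ + et C.w l z₀ z)‖ ^ 2 < (1 + e) * ‖ev C.J z₀‖ ^ 2 ∧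
      z ∈ C.U ∧ C.u z = ‖z l / z₀ l‖ * C.u (z₀ + et C.w l z₀ z) ∧
      ev C.J z = (z l / z₀ l) ^ C.jd * ev C.J (z₀ + et C.w l z₀ z) := by
    intro z hz
    rw [hW] at hz
    have h1 : et C.w l z₀ z l = 0 := et_l C.w l hl z₀ z hz.1
    have h2 := hball (hin _ hz.2.le)
    have ha : z l / z₀ l ≠ 0 := div_ne_zero hz.1 hz₀l
    have h3 := scl_et C.w l z₀ z hz.1 hz₀l
    refine ⟨hz.1, h1, h2.2.1, ⟨(abs_le.1 h2.1).2, (abs_le.1 h2.1).1⟩, h2.2.2.1, h2.2.2.2.1,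
      ?_, ?_, ?_⟩
    · have h4 := hC.sclU (z l / z₀ l) ha _ h2.2.1
      rwa [h3] at h4
    · have h4 := hC.uhom _ h2.2.1 (z l / z₀ l) ha
      rwa [h3] at h4
    · have h4 := hC.Jhom (z l / z₀ l) (z₀ + et C.w l z₀ z)
      rwa [h3] at h4
  have hFn : ∀ z, ‖F z‖ = ‖z l / z₀ l‖ * Real.exp (q (et C.w l z₀ z)).re := by
    intro z
    rw [hF]
    simp only
    rw [norm_mul, Complex.norm_exp]
  -- the main estimate
  have hFL : ∀ z ∈ W, ‖F z‖ ≤ Real.exp (-((1 - e) * L (et C.w l z₀ z))) * C.u z := by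
    intro z hz
    obtain ⟨h1, h2, h3, h4, h5, h6, h7, h8, h9⟩ := hWp z hz
    rw [hFn, h8]
    have h10 : C.u (z₀ + et C.w l z₀ z) = Real.exp (lu C (z₀ + et C.w l z₀ z)) := by
      unfold lu
      rw [Real.exp_log (upos hC h3)]
    have h11 : Real.exp (q (et C.w l z₀ z)).re ≤
        Real.exp (-((1 - e) * L (et C.w l z₀ z))) * C.u (z₀ + et C.w l z₀ z) := by
      rw [h10, ← Real.exp_add]
      apply Real.exp_le_exp.2
      have h12 := hc₀L _ h2
      have h13 : e * (c₀ * sn (et C.w l z₀ z)) ≤ e * L (et C.w l z₀ z) :=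
        mul_le_mul_of_nonneg_left h12 he0.le
      linarith [h4.2]
    calc ‖z l / z₀ l‖ * Real.exp (q (et C.w l z₀ z)).re
        ≤ ‖z l / z₀ l‖ * (Real.exp (-((1 - e) * L (et C.w l z₀ z))) *
            C.u (z₀ + et C.w l z₀ z)) := mul_le_mul_of_nonneg_left h11 (norm_nonneg _)
      _ = Real.exp (-((1 - e) * L (et C.w l z₀ z))) *
            (‖z l / z₀ l‖ * C.u (z₀ + et C.w l z₀ z)) := by ring
  have hL0 : ∀ z ∈ W, 0 ≤ L (et C.w l z₀ z) := by
    intro z hz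
    obtain ⟨h1, h2, -⟩ := hWp z hz
    exact le_trans (mul_nonneg hc₀.le (sn_nonneg _)) (hc₀L _ h2)
  have hWo : IsOpen W := by rw [hW]; exact hopen _
  have hWU : W ⊆ C.U := fun z hz => (hWp z hz).2.2.2.2.2.2.1
  obtain ⟨B, hB, hBB⟩ := grad_bd hC z₀ l hl hz₀l ρ hρ c₁ hc₁ (by
    intro η hη hη2
    have h2 := hball (hin _ hη2)
    exact ⟨h2.2.1, h2.2.2.2.2⟩)
  obtain ⟨c, hc⟩ : ∃ c, c = Real.exp (-((1 - e) * (c₀ * (ρ ^ 2 / 4)))) := ⟨_, rfl⟩
  have hρ2 : 0 < ρ ^ 2 := by positivity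
  refine ⟨W, W', chi C.w l z₀ ρ, F, B, c, hWo, ?_, ?_, ?_, hWU, ?_, ?_, ?_, ?_, ?_, ?_, ?_, ?_, ?_,
    ?_, ?_, ?_, ?_, ?_, hB, hBB, ?_⟩
  · rw [hW']; exact hopen _
  · rw [hW']
    refine ⟨hz₀l, ?_⟩
    rw [et_self C.w l z₀ hz₀l, sn_zero]
    positivity
  · rw [hW, hW']
    rintro z ⟨h1, h2⟩
    exact ⟨h1, by linarith⟩
  · intro z hz a ha
    rw [hW] at hz ⊢
    refine ⟨?_, ?_⟩
    · unfold scl
      rw [hl, pow_one]
      exact mul_ne_zero ha hz.1
    · rw [et_scl C.w l hl z₀ z a ha]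
      exact hz.2
  · intro z hz a ha
    rw [hW'] at hz ⊢
    refine ⟨?_, ?_⟩
    · unfold scl
      rw [hl, pow_one]
      exact mul_ne_zero ha hz.1
    · rw [et_scl C.w l hl z₀ z a ha]
      exact hz.2
  · intro z hz
    exact (chi_contDiffAt C.w l z₀ hz₀l ρ hρ z (exists_l hC hz)).contDiffWithinAt
  · intro z _
    exact chi_bd C.w l z₀ ρ z
  · intro z _ a ha
    exact chi_scl C.w l hl z₀ ρ z a ha
  · intro z hz
    rw [hW'] at hz
    exact chi_one C.w l z₀ ρ hρ z hz.1 hz.2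
  · intro z hz hzW
    rw [hW] at hzW
    exact chi_zero C.w l z₀ hz₀l ρ hρ z (exists_l hC hz) hzW
  · intro z hz
    have hzl := (hWp z hz).1
    rw [hF]
    apply DifferentiableAt.differentiableWithinAt
    have h1 : DifferentiableAt ℂ (fun x : Fin C.m → ℂ => x l) z := differentiableAt_apply l z
    have h2 : DifferentiableAt ℂ (fun x : Fin C.m → ℂ => x l / z₀ l) z := by
      simp only [div_eq_mul_inv]
      exact h1.mul_const _
    exact h2.mul ((hq.differentiableAt.comp z (et_differentiableAt C.w l z₀ z hzl)).cexp)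
  · intro z _ a ha
    rw [hF]
    simp only
    rw [et_scl C.w l hl z₀ z a ha]
    unfold scl
    rw [hl, pow_one]
    ring
  · rw [hFn, et_self C.w l z₀ hz₀l, hq0, div_self hz₀l, norm_one, one_mul, Complex.ofReal_re]
    unfold lu
    rw [Real.exp_log hu₀]
  · intro z hz
    refine (hFL z hz).trans ?_
    have h1 : Real.exp (-((1 - e) * L (et C.w l z₀ z))) ≤ 1 := by
      apply Real.exp_le_one_iff.2
      have := mul_nonneg (by linarith : (0 : ℝ) ≤ 1 - e) (hL0 z hz)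
      linarith
    have h2 := upos hC (hWU hz)
    nlinarith
  · rw [hc]; exact Real.exp_pos _
  · rw [hc]
    have h1 : 0 < (1 - e) * (c₀ * (ρ ^ 2 / 4)) := by
      apply mul_pos (by linarith)
      positivity
    have h2 : Real.exp (-((1 - e) * (c₀ * (ρ ^ 2 / 4)))) < Real.exp 0 :=
      Real.exp_lt_exp.2 (by linarith)
    rwa [Real.exp_zero] at h2
  · intro z hz hz'
    refine (hFL z hz).trans ?_
    apply mul_le_mul_of_nonneg_right _ (upos hC (hWU hz)).le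
    rw [hc]
    apply Real.exp_le_exp.2
    obtain ⟨h1, h2, -⟩ := hWp z hz
    have h3 : ρ ^ 2 / 4 ≤ sn (et C.w l z₀ z) := by
      by_contra h4
      apply hz'
      rw [hW']
      exact ⟨h1, not_le.1 h4⟩
    have h4 := hc₀L _ h2
    have h5 : c₀ * (ρ ^ 2 / 4) ≤ L (et C.w l z₀ z) :=
      (mul_le_mul_of_nonneg_left h3 hc₀.le).trans h4
    have h6 := mul_le_mul_of_nonneg_left h5 (by linarith : (0 : ℝ) ≤ 1 - e)
    linarith
  · -- the integral
    filter_upwards [eventually_gt_atTop 0] with j hj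
    have hjr : (0 : ℝ) < j := by exact_mod_cast hj
    have he1' : 0 < 1 - e := by linarith
    obtain ⟨t, ht⟩ : ∃ t : ℝ, t = 2 * j * (1 - e) := ⟨_, rfl⟩
    have ht0 : 0 < t := by rw [ht]; positivity
    obtain ⟨R, hR⟩ : ∃ R : ℝ, R = ‖z₀ l‖ / ((1 - e) * C.u z₀) := ⟨_, rfl⟩
    have hR0 : 0 < R := by rw [hR]; positivity
    have hint := int_main hg C.w l hl z₀ (ve C z₀) (fun j => dz j (cf (lu C)) z₀) hz₀l
      (by unfold ve; rw [hl, Nat.cast_one, one_mul]) _ (M_pd hC hz₀).1 L hLc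
      (fun σ η _ => by rw [hL]; exact hf_id hC hz₀ σ η) (2 * C.jd) R t hR0 ht0
      (by rw [(M_pd hC hz₀).2]; positivity)
    rw [(M_pd hC hz₀).2] at hint
    have hexp : 2 * C.jd + 2 * ∑ j, C.w j = C.m := by
      have := hC.deg
      omega
    rw [hexp] at hint
    have hSo : IsOpen {z | z ∈ W ∧ C.u z < 1} :=
      (hC.usm.continuousOn.mono hWU).isOpen_inter_preimage hWo isOpen_Iio
    have hSm := hSo.measurableSet
    have hgm : Measurable (fun z => ENNReal.ofReal (Real.exp (-(t * L (et C.w l z₀ z))))) :=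
      ENNReal.measurable_ofReal.comp ((Real.continuous_exp.comp
        (continuous_const.mul hLc).neg).measurable.comp (measurable_et C.w l z₀))
    have hDm : Measurable (fun z => ENNReal.ofReal (‖ev C.J z‖ ^ 2)) :=
      ENNReal.measurable_ofReal.comp (hJc.norm.pow 2).measurable
    calc ∫⁻ z in {z | z ∈ W ∧ C.u z < 1}, ENNReal.ofReal ((‖F z‖ / C.u z) ^ (2 * j)) ∂C.nu
        ≤ ∫⁻ z in {z | z ∈ W ∧ C.u z < 1},
            ENNReal.ofReal (Real.exp (-(t * L (et C.w l z₀ z)))) ∂C.nu := by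
          apply setLIntegral_mono' hSm
          intro z hz
          apply ENNReal.ofReal_le_ofReal
          have h1 := hFL z hz.1
          have h2 := upos hC (hWU hz.1)
          have h3 : ‖F z‖ / C.u z ≤ Real.exp (-((1 - e) * L (et C.w l z₀ z))) := by
            rw [div_le_iff₀ h2]
            exact h1
          calc (‖F z‖ / C.u z) ^ (2 * j)
              ≤ (Real.exp (-((1 - e) * L (et C.w l z₀ z)))) ^ (2 * j) :=
                pow_le_pow_left₀ (by positivity) h3 _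
            _ = Real.exp (-(t * L (et C.w l z₀ z))) := by
              rw [← Real.exp_nat_mul]
              congr 1
              rw [ht]
              push_cast
              ring
      _ = ∫⁻ z in {z | z ∈ W ∧ C.u z < 1}, ENNReal.ofReal (‖ev C.J z‖ ^ 2) *
            ENNReal.ofReal (Real.exp (-(t * L (et C.w l z₀ z)))) := by
          unfold Cone.nu
          rw [restrict_withDensity hSm, lintegral_withDensity_eq_lintegral_mul _ hDm hgm]
          rfl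
      _ ≤ ∫⁻ z in {z | z ∈ W ∧ C.u z < 1}, ENNReal.ofReal ((1 + e) * ‖ev C.J z₀‖ ^ 2) *
            (ENNReal.ofReal (‖z l / z₀ l‖ ^ (2 * C.jd)) *
              ENNReal.ofReal (Real.exp (-(t * L (et C.w l z₀ z))))) := by
          apply setLIntegral_mono' hSm
          intro z hz
          obtain ⟨h1, h2, h3, h4, h5, h6, h7, h8, h9⟩ := hWp z hz.1
          have h20 : ENNReal.ofReal (‖ev C.J z‖ ^ 2) ≤
              ENNReal.ofReal ((1 + e) * ‖ev C.J z₀‖ ^ 2) *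
                ENNReal.ofReal (‖z l / z₀ l‖ ^ (2 * C.jd)) := by
            rw [← ENNReal.ofReal_mul (by positivity)]
            apply ENNReal.ofReal_le_ofReal
            rw [h9, norm_mul, norm_pow, mul_pow, ← pow_mul, mul_comm C.jd 2, mul_comm]
            exact mul_le_mul_of_nonneg_right h6.le (by positivity)
          rw [← mul_assoc]
          exact mul_le_mul' h20 le_rfl
      _ ≤ ∫⁻ z in {z : Fin C.m → ℂ | z l ≠ 0 ∧ ‖z l‖ < R},
            ENNReal.ofReal ((1 + e) * ‖ev C.J z₀‖ ^ 2) *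
            (ENNReal.ofReal (‖z l / z₀ l‖ ^ (2 * C.jd)) *
              ENNReal.ofReal (Real.exp (-(t * L (et C.w l z₀ z))))) := by
          apply lintegral_mono_set
          rintro z ⟨hz, hz1⟩
          obtain ⟨h1, h2, h3, h4, h5, h6, h7, h8, h9⟩ := hWp z hz
          refine ⟨h1, ?_⟩
          rw [h8, norm_div] at hz1
          rw [hR, lt_div_iff₀ (by positivity)]
          have h10 : 0 < ‖z l‖ / ‖z₀ l‖ := div_pos (norm_pos_iff.2 h1) hn₀
          have h11 : ‖z l‖ / ‖z₀ l‖ * ((1 - e) * C.u z₀) < 1 :=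
            lt_trans (mul_lt_mul_of_pos_left h5 h10) hz1
          rw [div_mul_eq_mul_div, div_lt_one hn₀] at h11
          exact h11
      _ = ENNReal.ofReal ((1 + e) * ‖ev C.J z₀‖ ^ 2 * (2 * Real.pi / (C.m : ℝ) *
            (1 / ((1 - e) * C.u z₀)) ^ C.m * (Real.pi ^ (C.m - 1) / (4 * t ^ (C.m - 1) *
              (‖ev C.J z₀‖ ^ 2 / C.u z₀ ^ C.m))))) := by
          rw [lintegral_const_mul' _ _ ENNReal.ofReal_ne_top, hint,
            ← ENNReal.ofReal_mul (by positivity)]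
          congr 5
          rw [hR]
          field_simp
      _ ≤ ENNReal.ofReal ((1 + ε) * (Real.pi / 2) ^ C.m / (C.m * (j : ℝ) ^ (C.m - 1))) := by
          apply ENNReal.ofReal_le_ofReal
          rw [ht]
          exact final_le C.m j (by omega) hj e ε (C.u z₀) (‖ev C.J z₀‖ ^ 2) he1 hu₀
            (by positivity) heε

end Pool.Agent.Helper73.KP
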