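import Pool.Agent.Helper52.KP.StM
import Pool.Agent.Helper98.KP.M_CAL
import Pool.Agent.Helper22.KP.M_EUL

/-! Project KP, module LAP, part A: slice coordinates, quadratic forms. -/

set_option autoImplicit false

namespace Pool.Agent.Helper73.KP

open Pool.Agent.Helper52.KP hiding sq
open MeasureTheory Filter
open scoped ContDiff ComplexOrder Topology

variable {m : ℕ}

/-- squared Euclidean norm -/
noncomputable def sn (ξ : Fin m → ℂ) : ℝ := ∑ j, ‖ξ j‖ ^ 2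


theorem sn_nonneg (ξ : Fin m → ℂ) : 0 ≤ sn ξ := Finset.sum_nonneg fun _ _ => by positivity

theorem le_sn (ξ : Fin m → ℂ) (j : Fin m) : ‖ξ j‖ ^ 2 ≤ sn ξ :=
  Finset.single_le_sum (f := fun i => ‖ξ i‖ ^ 2) (fun _ _ => by positivity) (Finset.mem_univ j)

theorem sn_eq_zero (ξ : Fin m → ℂ) (h : sn ξ = 0) : ξ = 0 := by
  funext j
  have := le_sn ξ j
  rw [h] at this
  have h2 : ‖ξ j‖ = 0 := by
    have : ‖ξ j‖ ^ 2 = 0 := le_antisymm this (by positivity)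
    exact pow_eq_zero_iff (two_ne_zero) |>.1 this
  exact norm_eq_zero.1 h2

theorem norm_le_of_sn {ξ : Fin m → ℂ} {r : ℝ} (hr : 0 ≤ r) (h : sn ξ ≤ r ^ 2) : ‖ξ‖ ≤ r := by
  rw [pi_norm_le_iff_of_nonneg hr]
  intro j
  exact abs_le_of_sq_le_sq' (le_trans (le_sn ξ j) h) hr |>.2

theorem sn_le_norm (ξ : Fin m → ℂ) : sn ξ ≤ m * ‖ξ‖ ^ 2 := by
  unfold sn
  calc ∑ j, ‖ξ j‖ ^ 2 ≤ ∑ _j : Fin m, ‖ξ‖ ^ 2 :=
        Finset.sum_le_sum fun j _ => pow_le_pow_left₀ (norm_nonneg _) (norm_le_pi_norm ξ j) 2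
    _ = m * ‖ξ‖ ^ 2 := by simp

theorem norm_le_sn (ξ : Fin m → ℂ) : ‖ξ‖ ^ 2 ≤ sn ξ := by
  have h : ‖ξ‖ ≤ Real.sqrt (sn ξ) := by
    apply norm_le_of_sn (Real.sqrt_nonneg _)
    rw [Real.sq_sqrt (sn_nonneg ξ)]
  calc ‖ξ‖ ^ 2 ≤ (Real.sqrt (sn ξ)) ^ 2 := pow_le_pow_left₀ (norm_nonneg _) h 2
    _ = sn ξ := Real.sq_sqrt (sn_nonneg ξ)

theorem sn_zero : sn (0 : Fin m → ℂ) = 0 := by simp [sn]

theorem continuous_sn : Continuous (sn : (Fin m → ℂ) → ℝ) := by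
  unfold sn
  fun_prop

theorem sn_smul (r : ℝ) (ξ : Fin m → ℂ) : sn (r • ξ) = r ^ 2 * sn ξ := by
  unfold sn
  rw [Finset.mul_sum]
  refine Finset.sum_congr rfl fun j _ => ?_
  rw [Pi.smul_apply, norm_smul, mul_pow, Real.norm_eq_abs, sq_abs]

/-- A continuous function, positive on `S ∖ 0` and homogeneous of degree two is at least `c sq`. -/
theorem pos_lower (f : (Fin m → ℂ) → ℝ) (hf : Continuous f) (S : Set (Fin m → ℂ)) (hS : IsClosed S)
    (hSr : ∀ (r : ℝ), ∀ ξ ∈ S, r • ξ ∈ S) (hfr : ∀ (r : ℝ) ξ, f (r • ξ) = r ^ 2 * f ξ)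
    (hpos : ∀ ξ ∈ S, ξ ≠ 0 → 0 < f ξ) : ∃ c : ℝ, 0 < c ∧ ∀ ξ ∈ S, c * sn ξ ≤ f ξ := by
  have hK : IsCompact (S ∩ {ξ : Fin m → ℂ | sn ξ = 1}) := by
    apply Metric.isCompact_of_isClosed_isBounded
    · exact hS.inter (isClosed_eq continuous_sn continuous_const)
    · rw [Metric.isBounded_iff_subset_closedBall 0]
      refine ⟨1, ?_⟩
      rintro ξ ⟨_, h⟩
      rw [Set.mem_ofPred_eq] at h
      rw [mem_closedBall_zero_iff]
      apply norm_le_of_sn zero_le_one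
      rw [h]; norm_num
  have hf0 : f 0 = 0 := by
    have := hfr 0 0
    rw [smul_zero] at this
    rw [this]; ring
  rcases Set.eq_empty_or_nonempty (S ∩ {ξ : Fin m → ℂ | sn ξ = 1}) with he | hne
  · refine ⟨1, one_pos, ?_⟩
    intro ξ hξ
    by_cases h0 : ξ = 0
    · rw [h0, sn_zero, hf0, mul_zero]
    · exfalso
      have hs : 0 < sn ξ := lt_of_le_of_ne (sn_nonneg ξ) (fun h => h0 (sn_eq_zero ξ h.symm))
      have hmem : (Real.sqrt (sn ξ))⁻¹ • ξ ∈ S ∩ {ξ : Fin m → ℂ | sn ξ = 1} := by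
        refine ⟨hSr _ ξ hξ, ?_⟩
        rw [Set.mem_ofPred_eq, sn_smul, inv_pow, Real.sq_sqrt hs.le, inv_mul_cancel₀ hs.ne']
      rw [he] at hmem
      exact hmem
  · obtain ⟨ξ₀, hξ₀, hmin⟩ := hK.exists_isMinOn hne hf.continuousOn
    have hξ₀0 : ξ₀ ≠ 0 := by
      rintro rfl
      have := hξ₀.2
      rw [Set.mem_ofPred_eq, sn_zero] at this
      exact zero_ne_one this
    refine ⟨f ξ₀, hpos _ hξ₀.1 hξ₀0, ?_⟩
    intro ξ hξ
    by_cases h0 : ξ = 0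
    · rw [h0, sn_zero, hf0, mul_zero]
    · have hs : 0 < sn ξ := lt_of_le_of_ne (sn_nonneg ξ) (fun h => h0 (sn_eq_zero ξ h.symm))
      have hmem : (Real.sqrt (sn ξ))⁻¹ • ξ ∈ S ∩ {ξ : Fin m → ℂ | sn ξ = 1} := by
        refine ⟨hSr _ ξ hξ, ?_⟩
        rw [Set.mem_ofPred_eq, sn_smul, inv_pow, Real.sq_sqrt hs.le, inv_mul_cancel₀ hs.ne']
      have h1 : f ξ₀ ≤ f ((Real.sqrt (sn ξ))⁻¹ • ξ) := hmin hmem
      rw [hfr, inv_pow, Real.sq_sqrt hs.le] at h1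
      calc f ξ₀ * sn ξ ≤ ((sn ξ)⁻¹ * f ξ) * sn ξ := mul_le_mul_of_nonneg_right h1 hs.le
        _ = f ξ := by field_simp

/-! ### `hf` -/

theorem continuous_hf (A : Matrix (Fin m) (Fin m) ℂ) : Continuous (hf A) := by
  unfold hf
  apply Complex.continuous_re.comp
  refine continuous_finsetSum _ fun j _ => continuous_finsetSum _ fun k _ => ?_
  exact (continuous_const.mul (continuous_apply j)).mul (continuous_star.comp (continuous_apply k))

theorem hf_smul (A : Matrix (Fin m) (Fin m) ℂ) (r : ℝ) (ξ : Fin m → ℂ) :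
    hf A (r • ξ) = r ^ 2 * hf A ξ := by
  unfold hf
  rw [← Complex.re_ofReal_mul, Finset.mul_sum]
  congr 1
  refine Finset.sum_congr rfl fun j _ => ?_
  rw [Finset.mul_sum]
  refine Finset.sum_congr rfl fun k _ => ?_
  simp only [Pi.smul_apply, Complex.real_smul, star_mul', Complex.star_def, Complex.conj_ofReal]
  push_cast
  ring

theorem hf_zero (A : Matrix (Fin m) (Fin m) ℂ) : hf A 0 = 0 := by
  unfold hf
  simp

theorem hf_sub_le (A B : Matrix (Fin m) (Fin m) ℂ) (δ : ℝ) (h : ∀ j k, ‖A j k - B j k‖ ≤ δ)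
    (ξ : Fin m → ℂ) : |hf A ξ - hf B ξ| ≤ m ^ 2 * δ * sn ξ := by
  have hδ : ∀ j k : Fin m, ‖(A j k - B j k) * ξ j * star (ξ k)‖ ≤ δ * sn ξ := by
    intro j k
    rw [norm_mul, norm_mul, norm_star, mul_assoc]
    have h1 : ‖ξ j‖ * ‖ξ k‖ ≤ sn ξ := by
      have h3 := le_sn ξ j
      have h4 := le_sn ξ k
      nlinarith [sq_nonneg (‖ξ j‖ - ‖ξ k‖)]
    exact mul_le_mul (h j k) h1 (by positivity) (le_trans (norm_nonneg _) (h j k))
  have e : hf A ξ - hf B ξ = (∑ j, ∑ k, (A j k - B j k) * ξ j * star (ξ k)).re := by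
    unfold hf
    rw [← Complex.sub_re, ← Finset.sum_sub_distrib]
    congr 1
    refine Finset.sum_congr rfl fun j _ => ?_
    rw [← Finset.sum_sub_distrib]
    refine Finset.sum_congr rfl fun k _ => ?_
    ring
  rw [e]
  calc |(∑ j, ∑ k, (A j k - B j k) * ξ j * star (ξ k)).re|
      ≤ ‖∑ j, ∑ k, (A j k - B j k) * ξ j * star (ξ k)‖ := Complex.abs_re_le_norm _
    _ ≤ ∑ j : Fin m, ∑ k : Fin m, δ * sn ξ := by
        refine (norm_sum_le _ _).trans (Finset.sum_le_sum fun j _ => ?_)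
        exact (norm_sum_le _ _).trans (Finset.sum_le_sum fun k _ => hδ j k)
    _ = m ^ 2 * δ * sn ξ := by
        simp only [Finset.sum_const, Finset.card_univ, Fintype.card_fin, nsmul_eq_mul]
        ring

/-! ### slice coordinates -/

/-- the slice coordinate of `z` -/
noncomputable def et (w : Fin m → ℕ) (l : Fin m) (z₀ z : Fin m → ℂ) : Fin m → ℂ :=
  fun j => (z₀ l / z l) ^ w j * z j - z₀ j

theorem et_l (w : Fin m → ℕ) (l : Fin m) (hl : w l = 1) (z₀ z : Fin m → ℂ) (hz : z l ≠ 0) :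
    et w l z₀ z l = 0 := by
  unfold et
  rw [hl, pow_one, div_mul_cancel₀ _ hz, sub_self]

theorem et_scl (w : Fin m → ℕ) (l : Fin m) (hl : w l = 1) (z₀ z : Fin m → ℂ) (a : ℂ) (ha : a ≠ 0) :
    et w l z₀ (scl w a z) = et w l z₀ z := by
  funext j
  unfold et scl
  rw [hl, pow_one]
  have h1 : (z₀ l / (a * z l)) ^ w j * (a ^ w j * z j) = (z₀ l / (a * z l) * a) ^ w j * z j := by
    rw [mul_pow]; ring
  rw [h1]
  have h2 : z₀ l / (a * z l) * a = z₀ l / z l := by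
    rcases eq_or_ne (z l) 0 with h | h
    · rw [h]; simp
    · field_simp
  rw [h2]

theorem scl_et (w : Fin m → ℕ) (l : Fin m) (z₀ z : Fin m → ℂ) (hz : z l ≠ 0)
    (hz₀ : z₀ l ≠ 0) : scl w (z l / z₀ l) (z₀ + et w l z₀ z) = z := by
  funext j
  unfold et scl
  rw [Pi.add_apply, add_sub_cancel, ← mul_assoc, ← mul_pow]
  have : z l / z₀ l * (z₀ l / z l) = 1 := by field_simp
  rw [this, one_pow, one_mul]

theorem et_self (w : Fin m → ℕ) (l : Fin m) (z₀ : Fin m → ℂ) (hz₀ : z₀ l ≠ 0) :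
    et w l z₀ z₀ = 0 := by
  funext j
  unfold et
  rw [div_self hz₀, one_pow, one_mul, sub_self, Pi.zero_apply]

theorem scl_scl (w : Fin m → ℕ) (a b : ℂ) (z : Fin m → ℂ) :
    scl w a (scl w b z) = scl w (a * b) z := by
  funext j
  unfold scl
  rw [mul_pow]; ring

theorem scl_one (w : Fin m → ℕ) (z : Fin m → ℂ) : scl w 1 z = z := by
  funext j
  unfold scl
  rw [one_pow, one_mul]

theorem et_slice (w : Fin m → ℕ) (l : Fin m) (z₀ η : Fin m → ℂ) (hz₀ : z₀ l ≠ 0) (hη : η l = 0) :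
    et w l z₀ (z₀ + η) = η := by
  funext j
  unfold et
  rw [Pi.add_apply, Pi.add_apply, hη, add_zero, div_self hz₀, one_pow, one_mul, add_sub_cancel_left]

theorem et_contDiffAt (w : Fin m → ℕ) (l : Fin m) (z₀ z : Fin m → ℂ) (hz : z l ≠ 0) :
    ContDiffAt ℝ ∞ (et w l z₀) z := by
  rw [contDiffAt_pi]
  intro j
  change ContDiffAt ℝ ∞ (fun x : Fin m → ℂ => (z₀ l * (x l)⁻¹) ^ w j * x j - z₀ j) z
  have h1 : ContDiffAt ℝ ∞ (fun x : Fin m → ℂ => x l) z := by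
    exact (contDiff_apply ℝ ℂ l).contDiffAt
  have h2 : ContDiffAt ℝ ∞ (fun x : Fin m → ℂ => x j) z := by
    exact (contDiff_apply ℝ ℂ j).contDiffAt
  exact ((((contDiffAt_const.mul (h1.inv hz)).pow _).mul h2).sub contDiffAt_const)

theorem et_differentiableAt (w : Fin m → ℕ) (l : Fin m) (z₀ z : Fin m → ℂ) (hz : z l ≠ 0) :
    DifferentiableAt ℂ (et w l z₀) z := by
  rw [differentiableAt_pi]
  intro j
  change DifferentiableAt ℂ (fun x : Fin m → ℂ => (z₀ l * (x l)⁻¹) ^ w j * x j - z₀ j) z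
  have h1 : DifferentiableAt ℂ (fun x : Fin m → ℂ => x l) z := differentiableAt_apply l z
  have h2 : DifferentiableAt ℂ (fun x : Fin m → ℂ => x j) z := differentiableAt_apply j z
  exact ((((differentiableAt_const _).mul (h1.inv hz)).pow _).mul h2).sub
    (differentiableAt_const _)

theorem sn_contDiff : ContDiff ℝ ∞ (sn : (Fin m → ℂ) → ℝ) := by
  unfold sn
  refine ContDiff.sum fun j _ => ?_
  exact (contDiff_apply ℝ ℂ j).norm_sq ℝ

end Pool.Agent.Helper73.KP
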