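import Pool.Agent.Helper73.KP.LapA

/-! Project KP, module LAP, part B: second order Taylor expansion. -/

set_option autoImplicit false

namespace Pool.Agent.Helper73.KP

open Pool.Agent.Helper52.KP hiding sq
open MeasureTheory Filter
open scoped ContDiff ComplexOrder Topology

theorem taylor2 {E : Type} [NormedAddCommGroup E] [NormedSpace ℝ E] (f : E → ℝ) (x : E)
    (hf : ContDiffAt ℝ 2 f x) (ε : ℝ) (hε : 0 < ε) :
    ∀ᶠ h in 𝓝 (0 : E), |f (x + h) - f x - fderiv ℝ f x h -
      (1 / 2) * fderiv ℝ (fderiv ℝ f) x h h| ≤ ε * ‖h‖ ^ 2 := by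
  obtain ⟨D, hD⟩ : ∃ D, D = fderiv ℝ f := ⟨_, rfl⟩
  obtain ⟨B, hB⟩ : ∃ B, B = fderiv ℝ (fderiv ℝ f) x := ⟨_, rfl⟩
  rw [← hB]
  have hsym : ∀ v w, B v w = B w v := by
    intro v w
    have h1 := hf.isSymmSndFDerivAt (by simp)
    rw [hB]
    exact h1 v w
  have hdD : HasFDerivAt D B x := by
    rw [hD, hB]
    exact ((hf.fderiv_right (m := 1) (by norm_num)).differentiableAt (by norm_num)).hasFDerivAt
  -- differentiability near x
  have hev : ∀ᶠ y in 𝓝 x, DifferentiableAt ℝ f y := by
    have h1 := hf.eventually (by simp)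
    filter_upwards [h1] with y hy
    exact hy.differentiableAt (by norm_num)
  have hev2 : ∀ᶠ y in 𝓝 x, ‖D y - D x - B (y - x)‖ ≤ ε * ‖y - x‖ :=
    hdD.isLittleO.def hε
  obtain ⟨r, hr, hball⟩ := Metric.eventually_nhds_iff.1 (hev.and hev2)
  rw [Metric.eventually_nhds_iff]
  refine ⟨r, hr, ?_⟩
  intro h hh
  rw [dist_zero_right] at hh
  let g : E → ℝ := fun k => f (x + k) - f x - D x k - (1 / 2) * B k k
  let g' : E → E →L[ℝ] ℝ := fun k => D (x + k) - D x - B k
  have hg : ∀ k ∈ Metric.closedBall (0 : E) ‖h‖, HasFDerivWithinAt g (g' k)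
      (Metric.closedBall (0 : E) ‖h‖) k := by
    intro k hk
    rw [mem_closedBall_zero_iff] at hk
    have hd : dist (x + k) x < r := by
      rw [dist_eq_norm, add_sub_cancel_left]
      exact lt_of_le_of_lt hk hh
    have h1 : HasFDerivAt (fun k => f (x + k)) (D (x + k)) k := by
      have h2 := (hball hd).1.hasFDerivAt
      rw [← hD] at h2
      have h3 := h2.comp k ((hasFDerivAt_id k).const_add x)
      exact h3.congr_fderiv (by ext v; rfl)
    have h3 : HasFDerivAt (fun k => B k k) ((B k) + B.flip k) k := by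
      have h6 := B.hasFDerivAt.clm_apply (hasFDerivAt_id k) (x := k)
      exact h6.congr_fderiv (by ext v; rfl)
    have h4 : HasFDerivAt g (D (x + k) - D x - (1 / 2 : ℝ) • ((B k) + B.flip k)) k :=
      ((h1.sub_const (f x)).sub (D x).hasFDerivAt).sub (h3.const_mul (1 / 2))
    have h5 : g' k = D (x + k) - D x - (1 / 2 : ℝ) • ((B k) + B.flip k) := by
      ext v
      change D (x + k) v - D x v - B k v =
        D (x + k) v - D x v - (1 / 2 : ℝ) * (B k v + B v k)
      rw [hsym v k]
      ring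
    rw [h5]
    exact h4.hasFDerivWithinAt
  have hbd : ∀ k ∈ Metric.closedBall (0 : E) ‖h‖, ‖g' k‖ ≤ ε * ‖h‖ := by
    intro k hk
    rw [mem_closedBall_zero_iff] at hk
    have hd : dist (x + k) x < r := by
      rw [dist_eq_norm, add_sub_cancel_left]
      exact lt_of_le_of_lt hk hh
    have h2 := (hball hd).2
    rw [add_sub_cancel_left] at h2
    exact h2.trans (mul_le_mul_of_nonneg_left hk hε.le)
  have hmv := (convex_closedBall (0 : E) ‖h‖).norm_image_sub_le_of_norm_hasFDerivWithin_le hg hbd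
    (Metric.mem_closedBall_self (norm_nonneg h)) (by rw [mem_closedBall_zero_iff] : h ∈ _)
  have hg0 : g 0 = 0 := by
    change f (x + 0) - f x - D x 0 - (1 / 2) * B 0 0 = 0
    simp
  rw [hg0, sub_zero, sub_zero, Real.norm_eq_abs] at hmv
  change |f (x + h) - f x - (fderiv ℝ f x) h - (1 / 2) * B h h| ≤ _
  rw [← hD]
  calc |g h| ≤ ε * ‖h‖ * ‖h‖ := hmv
    _ = ε * ‖h‖ ^ 2 := by ring

variable {m : ℕ}

theorem decomp (η : Fin m → ℂ) :
    η = ∑ j, ((η j).re • (Pi.single j (1 : ℂ) : Fin m → ℂ) + (η j).im • (Pi.single j Complex.I : Fin m → ℂ)) := by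
  funext i
  rw [Finset.sum_apply, Finset.sum_eq_single i]
  · rw [Pi.add_apply, Pi.smul_apply, Pi.smul_apply, Pi.single_eq_same, Pi.single_eq_same,
      Complex.real_smul, Complex.real_smul, mul_one]
    exact (Complex.re_add_im (η i)).symm
  · intro j _ hj
    rw [Pi.add_apply, Pi.smul_apply, Pi.smul_apply, Pi.single_eq_of_ne hj.symm,
      Pi.single_eq_of_ne hj.symm, smul_zero, smul_zero, add_zero]
  · intro h
    exact absurd (Finset.mem_univ i) h

theorem fderiv_cf (f : (Fin m → ℂ) → ℝ) (z v : Fin m → ℂ) (h : DifferentiableAt ℝ f z) :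
    fderiv ℝ (cf f) z v = ((fderiv ℝ f z v : ℝ) : ℂ) := by
  have h1 : HasFDerivAt (cf f) (Complex.ofRealCLM.comp (fderiv ℝ f z)) z :=
    Complex.ofRealCLM.hasFDerivAt.comp z h.hasFDerivAt
  rw [h1.fderiv]
  rfl

theorem hes_eq (f : (Fin m → ℂ) → ℝ) (z : Fin m → ℂ) (hf : ContDiffAt ℝ 2 f z) (j k : Fin m) :
    hes f z j k = (1 / 4) * (((fderiv ℝ (fderiv ℝ f) z (Pi.single j 1) (Pi.single k 1) : ℝ) : ℂ) +
      ((fderiv ℝ (fderiv ℝ f) z (Pi.single j Complex.I) (Pi.single k Complex.I) : ℝ) : ℂ) +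
      Complex.I * (((fderiv ℝ (fderiv ℝ f) z (Pi.single j 1) (Pi.single k Complex.I) : ℝ) : ℂ) -
        ((fderiv ℝ (fderiv ℝ f) z (Pi.single j Complex.I) (Pi.single k 1) : ℝ) : ℂ))) := by
  obtain ⟨B, hB⟩ : ∃ B, B = fderiv ℝ (fderiv ℝ f) z := ⟨_, rfl⟩
  rw [← hB]
  have hdD : HasFDerivAt (fderiv ℝ f) B z := by
    rw [hB]
    exact ((hf.fderiv_right (m := 1) (by norm_num)).differentiableAt (by norm_num)).hasFDerivAt
  have hev : ∀ᶠ y in 𝓝 z, DifferentiableAt ℝ f y := by
    have h1 := hf.eventually (by simp)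
    filter_upwards [h1] with y hy
    exact hy.differentiableAt (by norm_num)
  have hap : ∀ v : Fin m → ℂ, HasFDerivAt (fun y => ((fderiv ℝ f y v : ℝ) : ℂ))
      (Complex.ofRealCLM.comp (B.flip v)) z := by
    intro v
    have h1 : HasFDerivAt (fun y => fderiv ℝ f y v) (B.flip v) z := by
      have h2 := hdD.clm_apply (hasFDerivAt_const v z)
      exact h2.congr_fderiv (by ext w; simp)
    exact Complex.ofRealCLM.hasFDerivAt.comp z h1
  have hdb : HasFDerivAt (db k (cf f))
      ((1 / 2 : ℂ) • (Complex.ofRealCLM.comp (B.flip (Pi.single k 1)) +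
        Complex.I • Complex.ofRealCLM.comp (B.flip (Pi.single k Complex.I)))) z := by
    have h1 := ((hap (Pi.single k 1)).add ((hap (Pi.single k Complex.I)).const_mul
      Complex.I)).const_mul (1 / 2 : ℂ)
    refine h1.congr_of_eventuallyEq ?_
    filter_upwards [hev] with y hy
    unfold db
    rw [fderiv_cf f y _ hy, fderiv_cf f y _ hy]
    simp only [Pi.add_apply]
    ring
  unfold hes
  rw [Matrix.of_apply]
  unfold dz
  rw [hdb.fderiv]
  simp only [smul_apply, add_apply,
    ContinuousLinearMap.comp_apply, Complex.ofRealCLM_apply, ContinuousLinearMap.flip_apply,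
    smul_eq_mul]
  linear_combination (-(1 / 4) * ((B (Pi.single j Complex.I) (Pi.single k Complex.I) : ℝ) : ℂ)) *
    Complex.I_sq

theorem tay (f : (Fin m → ℂ) → ℝ) (z : Fin m → ℂ) (hcf : ContDiffAt ℝ 2 f z) :
    ∃ q : (Fin m → ℂ) → ℂ, Differentiable ℂ q ∧ q 0 = f z ∧
      ∀ ε : ℝ, 0 < ε → ∀ᶠ η in 𝓝 (0 : Fin m → ℂ),
        |f (z + η) - (q η).re - hf (hes f z) η| ≤ ε * sn η := by
  obtain ⟨B, hB⟩ : ∃ B, B = fderiv ℝ (fderiv ℝ f) z := ⟨_, rfl⟩
  obtain ⟨D, hD⟩ : ∃ D, D = fderiv ℝ f z := ⟨_, rfl⟩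
  obtain ⟨e, he⟩ : ∃ e : Fin m → (Fin m → ℂ), e = fun j => Pi.single j 1 := ⟨_, rfl⟩
  obtain ⟨g, hg⟩ : ∃ g : Fin m → (Fin m → ℂ), g = fun j => Pi.single j Complex.I := ⟨_, rfl⟩
  let q : (Fin m → ℂ) → ℂ := fun η => (f z : ℂ) +
    ∑ j, (((D (e j) : ℝ) : ℂ) - Complex.I * ((D (g j) : ℝ) : ℂ)) * η j +
    ∑ j, ∑ k, (1 / 4 : ℂ) * (((B (e j) (e k) : ℝ) : ℂ) - ((B (g j) (g k) : ℝ) : ℂ) -
      Complex.I * (((B (e j) (g k) : ℝ) : ℂ) + ((B (g j) (e k) : ℝ) : ℂ))) * (η j * η k)
  have hdec : ∀ η : Fin m → ℂ, η = ∑ j, ((η j).re • e j + (η j).im • g j) := by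
    intro η
    rw [he, hg]
    exact decomp η
  refine ⟨q, ?_, ?_, ?_⟩
  · have hj : ∀ j : Fin m, Differentiable ℂ (fun η : Fin m → ℂ => η j) := fun j =>
      differentiable_apply j
    refine ((differentiable_const _).add ?_).add ?_
    · exact Differentiable.fun_sum fun j _ => (differentiable_const _).mul (hj j)
    · refine Differentiable.fun_sum fun j _ => Differentiable.fun_sum fun k _ => ?_
      exact (differentiable_const _).mul ((hj j).mul (hj k))
  · simp [q]
  · intro ε hε
    filter_upwards [taylor2 f z hcf ε hε] with η hη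
    rw [← hB, ← hD] at hη
    have hDη : D η = ∑ j, ((η j).re * D (e j) + (η j).im * D (g j)) := by
      conv_lhs => rw [hdec η]
      rw [map_sum]
      refine Finset.sum_congr rfl fun j _ => ?_
      rw [map_add, map_smul, map_smul, smul_eq_mul, smul_eq_mul]
    have hBη : B η η = ∑ j, ∑ k, ((η j).re * (η k).re * B (e j) (e k) +
        (η j).re * (η k).im * B (e j) (g k) + (η j).im * (η k).re * B (g j) (e k) +
        (η j).im * (η k).im * B (g j) (g k)) := by
      have h1 : ∀ v, B v η = ∑ k, ((η k).re * B v (e k) + (η k).im * B v (g k)) := by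
        intro v
        conv_lhs => rw [hdec η]
        rw [map_sum]
        refine Finset.sum_congr rfl fun j _ => ?_
        rw [map_add, map_smul, map_smul, smul_eq_mul, smul_eq_mul]
      have h2 : B η = ∑ j, ((η j).re • B (e j) + (η j).im • B (g j)) := by
        conv_lhs => rw [hdec η]
        rw [map_sum]
        refine Finset.sum_congr rfl fun j _ => ?_
        rw [map_add, map_smul, map_smul]
      rw [h2, ContinuousLinearMap.sum_apply]
      refine Finset.sum_congr rfl fun j _ => ?_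
      rw [add_apply, smul_apply, smul_apply, h1, h1, smul_eq_mul, smul_eq_mul, Finset.mul_sum,
        Finset.mul_sum, ← Finset.sum_add_distrib]
      refine Finset.sum_congr rfl fun k _ => ?_
      ring
    have hq : (q η).re = f z + ∑ j, ((η j).re * D (e j) + (η j).im * D (g j)) +
        ∑ j, ∑ k, (1 / 4 : ℝ) * ((B (e j) (e k) - B (g j) (g k)) *
          ((η j).re * (η k).re - (η j).im * (η k).im) +
          (B (e j) (g k) + B (g j) (e k)) * ((η j).re * (η k).im + (η j).im * (η k).re)) := by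
      change ((f z : ℂ) + _ + _ : ℂ).re = _
      rw [Complex.add_re, Complex.add_re, Complex.ofReal_re, Complex.re_sum, Complex.re_sum]
      congr 1
      · congr 1
        refine Finset.sum_congr rfl fun j _ => ?_
        simp [Complex.mul_re, Complex.mul_im]
        ring
      · refine Finset.sum_congr rfl fun j _ => ?_
        rw [Complex.re_sum]
        refine Finset.sum_congr rfl fun k _ => ?_
        rw [show (1 / 4 : ℂ) * (((B (e j) (e k) : ℝ) : ℂ) - ((B (g j) (g k) : ℝ) : ℂ) -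
          Complex.I * (((B (e j) (g k) : ℝ) : ℂ) + ((B (g j) (e k) : ℝ) : ℂ))) * (η j * η k) =
          (((1 / 4 : ℝ) : ℂ)) * ((((B (e j) (e k) - B (g j) (g k) : ℝ) : ℂ) -
          Complex.I * (((B (e j) (g k) + B (g j) (e k) : ℝ) : ℂ))) * (η j * η k)) by
          push_cast; ring, Complex.re_ofReal_mul]
        congr 1
        simp only [Complex.mul_re, Complex.mul_im, Complex.sub_re, Complex.sub_im,
          Complex.ofReal_re, Complex.ofReal_im, Complex.I_re, Complex.I_im]
        ring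
    have hH : hf (hes f z) η = ∑ j, ∑ k, (1 / 4 : ℝ) * ((B (e j) (e k) + B (g j) (g k)) *
          ((η j).re * (η k).re + (η j).im * (η k).im) -
          (B (e j) (g k) - B (g j) (e k)) * ((η j).im * (η k).re - (η j).re * (η k).im)) := by
      unfold hf
      rw [Complex.re_sum]
      refine Finset.sum_congr rfl fun j _ => ?_
      rw [Complex.re_sum]
      refine Finset.sum_congr rfl fun k _ => ?_
      rw [hes_eq f z hcf j k, ← hB]
      have e1 : ∀ j, (Pi.single j 1 : Fin m → ℂ) = e j := fun j => by rw [he]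
      have e2 : ∀ j, (Pi.single j Complex.I : Fin m → ℂ) = g j := fun j => by rw [hg]
      rw [e1, e1, e2, e2]
      rw [show (1 / 4 : ℂ) * (((B (e j) (e k) : ℝ) : ℂ) + ((B (g j) (g k) : ℝ) : ℂ) +
          Complex.I * (((B (e j) (g k) : ℝ) : ℂ) - ((B (g j) (e k) : ℝ) : ℂ))) * η j * star (η k) =
          (((1 / 4 : ℝ) : ℂ)) * ((((B (e j) (e k) + B (g j) (g k) : ℝ) : ℂ) +
          Complex.I * (((B (e j) (g k) - B (g j) (e k) : ℝ) : ℂ))) * (η j * star (η k))) by
          push_cast; ring, Complex.re_ofReal_mul]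
      congr 1
      simp only [Complex.mul_re, Complex.mul_im, Complex.add_re, Complex.add_im, Complex.star_def,
          Complex.conj_re, Complex.conj_im,
          Complex.ofReal_re, Complex.ofReal_im, Complex.I_re, Complex.I_im]
      ring
    have key : D η + (1 / 2) * B η η = (q η).re - f z + hf (hes f z) η := by
      rw [hDη, hBη, hq, hH]
      have h3 : (1 / 2 : ℝ) * ∑ j, ∑ k, ((η j).re * (η k).re * B (e j) (e k) +
        (η j).re * (η k).im * B (e j) (g k) + (η j).im * (η k).re * B (g j) (e k) +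
        (η j).im * (η k).im * B (g j) (g k)) =
        ∑ j, ∑ k, (1 / 4 : ℝ) * ((B (e j) (e k) - B (g j) (g k)) *
          ((η j).re * (η k).re - (η j).im * (η k).im) +
          (B (e j) (g k) + B (g j) (e k)) * ((η j).re * (η k).im + (η j).im * (η k).re)) +
        ∑ j, ∑ k, (1 / 4 : ℝ) * ((B (e j) (e k) + B (g j) (g k)) *
          ((η j).re * (η k).re + (η j).im * (η k).im) -
          (B (e j) (g k) - B (g j) (e k)) * ((η j).im * (η k).re - (η j).re * (η k).im)) := by
        rw [Finset.mul_sum, ← Finset.sum_add_distrib]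
        refine Finset.sum_congr rfl fun j _ => ?_
        rw [Finset.mul_sum, ← Finset.sum_add_distrib]
        refine Finset.sum_congr rfl fun k _ => ?_
        ring
      rw [h3]
      ring
    have h4 : f (z + η) - (q η).re - hf (hes f z) η =
        f (z + η) - f z - D η - (1 / 2) * B η η := by linarith
    rw [h4]
    exact hη.trans (mul_le_mul_of_nonneg_left (norm_le_sn η) hε.le)

end Pool.Agent.Helper73.KP
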