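import Pool.Agent.Helper73.KP.LapA

/-! Project KP, module LAP, part C: integrals. -/

set_option autoImplicit false

namespace Pool.Agent.Helper73.KP

open Pool.Agent.Helper52.KP hiding sq
open MeasureTheory Filter
open scoped ContDiff ComplexOrder Topology

section Ins

variable {p : ℕ}

/-- insert `s` at the position `l` -/
def ins (l : Fin (p + 1)) (s : ℂ) (y : Fin p → ℂ) : Fin (p + 1) → ℂ :=
  Fin.insertNth (α := fun _ => ℂ) l s y

theorem ins_l (l : Fin (p + 1)) (s : ℂ) (y : Fin p → ℂ) : ins l s y l = s := by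
  unfold ins
  exact Fin.insertNth_apply_same (α := fun _ => ℂ) l s y

theorem ins_succ (l : Fin (p + 1)) (s : ℂ) (y : Fin p → ℂ) (j : Fin p) :
    ins l s y (l.succAbove j) = y j := by
  unfold ins
  exact Fin.insertNth_apply_succAbove (α := fun _ => ℂ) l s y j

theorem ins_ext (l : Fin (p + 1)) (z z' : Fin (p + 1) → ℂ) (h1 : z l = z' l)
    (h2 : ∀ j, z (l.succAbove j) = z' (l.succAbove j)) : z = z' := by
  funext i
  rcases Fin.eq_self_or_eq_succAbove l i with rfl | ⟨j, rfl⟩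
  · exact h1
  · exact h2 j

theorem continuous_ins (l : Fin (p + 1)) :
    Continuous fun x : ℂ × (Fin p → ℂ) => ins l x.1 x.2 := by
  refine continuous_pi fun i => ?_
  rcases Fin.eq_self_or_eq_succAbove l i with rfl | ⟨j, rfl⟩
  · simp only [ins_l]
    exact continuous_fst
  · simp only [ins_succ]
    exact (continuous_apply j).comp continuous_snd

theorem fub (l : Fin (p + 1)) (g : (Fin (p + 1) → ℂ) → ENNReal) (hg : Measurable g) :
    ∫⁻ z, g z = ∫⁻ s : ℂ, ∫⁻ y : Fin p → ℂ, g (ins l s y) := by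
  have h1 := (volume_preserving_piFinSuccAbove (fun _ : Fin (p + 1) => ℂ) l).symm
  have h2 := h1.lintegral_comp hg
  rw [← h2, Measure.volume_eq_prod, lintegral_prod]
  · rfl
  · exact (hg.comp (MeasurableEquiv.measurable _)).aemeasurable

end Ins

/-- change of variables for the scaling -/
theorem scl_lint {m : ℕ} (w : Fin m → ℕ) {c : ℂ} (hc : c ≠ 0) (f : (Fin m → ℂ) → ENNReal)
    (hf : Measurable f) :
    ∫⁻ z, f z = ENNReal.ofReal (‖c‖ ^ (2 * ∑ j, w j)) * ∫⁻ z, f (scl w c z) := by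
  obtain ⟨L, hLd⟩ : ∃ L : (Fin m → ℂ) →ₗ[ℝ] (Fin m → ℂ), L =
    (Matrix.toLin' (Matrix.diagonal fun j => c ^ w j)).restrictScalars ℝ := ⟨_, rfl⟩
  have hL : ∀ z, L z = scl w c z := by
    intro z
    ext j
    rw [hLd]
    simp [scl, Matrix.mulVec_diagonal]
  have hdet : LinearMap.det L = ‖c‖ ^ (2 * ∑ j, w j) := by
    rw [hLd, LinearMap.det_restrictScalars, LinearMap.det_toLin', Matrix.det_diagonal,
      Algebra.norm_complex_apply, Finset.prod_pow_eq_pow_sum, Complex.normSq_eq_norm_sq, norm_pow,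
      ← pow_mul, mul_comm]
  have hn : 0 < ‖c‖ := norm_pos_iff.2 hc
  have hpos : 0 < ‖c‖ ^ (2 * ∑ j, w j) := by positivity
  have hmap := Measure.map_linearMap_addHaar_eq_smul_addHaar (volume : Measure (Fin m → ℂ))
    (f := L) (by rw [hdet]; exact hpos.ne')
  have hLm : Measurable L := (LinearMap.continuous_of_finiteDimensional L).measurable
  have h1 : ∫⁻ z, f (scl w c z) = ∫⁻ z, f z ∂(Measure.map L volume) := by
    rw [lintegral_map hf hLm]
    simp_rw [hL]
  rw [h1, hmap, lintegral_smul_measure, hdet, smul_eq_mul, ← mul_assoc,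
    ← ENNReal.ofReal_mul hpos.le, abs_of_pos (inv_pos.2 hpos), mul_inv_cancel₀ hpos.ne',
    ENNReal.ofReal_one, one_mul]

/-- the integral over a disc -/
theorem disc (N : ℕ) (R : ℝ) (hR : 0 < R) :
    ∫⁻ s : ℂ in {s : ℂ | s ≠ 0 ∧ ‖s‖ < R}, ENNReal.ofReal (‖s‖ ^ N) =
      ENNReal.ofReal (2 * Real.pi * R ^ (N + 2) / (N + 2)) := by
  have hm : MeasurableSet {s : ℂ | s ≠ 0 ∧ ‖s‖ < R} := by
    refine IsOpen.measurableSet ?_
    exact (isOpen_ne (x := (0 : ℂ))).inter (isOpen_lt continuous_norm continuous_const)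
  rw [← lintegral_indicator hm, ← Complex.lintegral_comp_polarCoord_symm]
  have h1 : ∀ q ∈ polarCoord.target, ENNReal.ofReal q.1 •
      ({s : ℂ | s ≠ 0 ∧ ‖s‖ < R}.indicator (fun s => ENNReal.ofReal (‖s‖ ^ N))
        (Complex.polarCoord.symm q)) =
      (Set.Iio R).indicator (fun r => ENNReal.ofReal (r ^ (N + 1))) q.1 := by
    intro q hq
    rw [polarCoord_target] at hq
    have hq0 : 0 < q.1 := hq.1
    have hn : ‖Complex.polarCoord.symm q‖ = q.1 := by
      rw [Complex.norm_polarCoord_symm, abs_of_pos hq0]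
    by_cases hqR : q.1 < R
    · rw [Set.indicator_of_mem, Set.indicator_of_mem (by exact hqR : q.1 ∈ Set.Iio R), hn,
        smul_eq_mul, ← ENNReal.ofReal_mul hq0.le, pow_succ']
      refine ⟨?_, ?_⟩
      · rw [← norm_pos_iff, hn]; exact hq0
      · rw [hn]; exact hqR
    · rw [Set.indicator_of_notMem, Set.indicator_of_notMem (by exact hqR : q.1 ∉ Set.Iio R),
        smul_zero]
      rintro ⟨_, h2⟩
      rw [hn] at h2
      exact hqR h2
  have hmt : MeasurableSet polarCoord.target := by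
    rw [polarCoord_target]
    exact measurableSet_Ioi.prod measurableSet_Ioo
  rw [setLIntegral_congr_fun hmt h1, polarCoord_target, Measure.volume_eq_prod,
    ← Measure.prod_restrict, lintegral_prod]
  · simp only [lintegral_const, Measure.restrict_apply MeasurableSet.univ, Set.univ_inter,
      Real.volume_Ioo]
    rw [lintegral_mul_const']
    · have h3 : ∫⁻ r in Set.Ioi (0 : ℝ), (Set.Iio R).indicator
          (fun r => ENNReal.ofReal (r ^ (N + 1))) r =
          ENNReal.ofReal (R ^ (N + 2) / (N + 2)) := by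
        rw [lintegral_indicator measurableSet_Iio, Measure.restrict_restrict measurableSet_Iio]
        have h4 : Set.Iio R ∩ Set.Ioi 0 = Set.Ioo 0 R := by
          ext r
          simp [and_comm]
        rw [h4]
        have hint : IntegrableOn (fun r : ℝ => r ^ (N + 1)) (Set.Ioo 0 R) := by
          have h5 : IntegrableOn (fun r : ℝ => r ^ (N + 1)) (Set.Icc 0 R) :=
            (by fun_prop : Continuous fun r : ℝ => r ^ (N + 1)).continuousOn.integrableOn_Icc
          exact h5.mono_set Set.Ioo_subset_Icc_self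
        rw [← ofReal_integral_eq_lintegral_ofReal hint]
        · rw [← integral_Ioc_eq_integral_Ioo, ← intervalIntegral.integral_of_le hR.le, integral_pow]
          congr 1
          push_cast
          have : (0 : ℝ) ^ (N + 1 + 1) = 0 := by simp
          rw [this]
          ring_nf
        · refine (ae_restrict_iff' measurableSet_Ioo).2 (Eventually.of_forall fun s hs => ?_)
          have := hs.1
          simp only [Pi.zero_apply]
          positivity
      rw [h3, ← ENNReal.ofReal_mul (by positivity)]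
      congr 1
      ring
    · exact ENNReal.ofReal_ne_top
  · have hmi : Measurable ((Set.Iio R).indicator (fun r : ℝ => ENNReal.ofReal (r ^ (N + 1)))) :=
      Measurable.indicator (by fun_prop) measurableSet_Iio
    exact (hmi.comp measurable_fst).aemeasurable

/-- the Gaussian integral over `ℂ` -/
theorem gau1 (b : ℝ) (hb : 0 < b) :
    ∫⁻ s : ℂ, ENNReal.ofReal (Real.exp (-(b * ‖s‖ ^ 2))) = ENNReal.ofReal (Real.pi / b) := by
  have h1 := GaussianFourier.integral_rexp_neg_mul_sq_norm (V := ℂ) hb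
  rw [Complex.finrank_real_complex] at h1
  have h2 : ∫ v : ℂ, Real.exp (-b * ‖v‖ ^ 2) = Real.pi / b := by
    rw [h1]
    norm_num
  have hint : Integrable fun v : ℂ => Real.exp (-b * ‖v‖ ^ 2) := by
    by_contra h
    rw [integral_undef h] at h2
    have : 0 < Real.pi / b := by positivity
    linarith
  have h3 : ∀ s : ℂ, Real.exp (-(b * ‖s‖ ^ 2)) = Real.exp (-b * ‖s‖ ^ 2) := by
    intro s
    rw [neg_mul]
  simp_rw [h3]
  rw [← ofReal_integral_eq_lintegral_ofReal hint (Eventually.of_forall fun s => by positivity), h2]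

/-- the Gaussian integral over `ℂ`, translated and scaled -/
theorem gau2 (t : ℝ) (ht : 0 < t) (v β : ℂ) (hv : v ≠ 0) :
    ∫⁻ s : ℂ, ENNReal.ofReal (Real.exp (-(t * ‖s / v / 2 + β‖ ^ 2))) =
      ENNReal.ofReal (4 * Real.pi * ‖v‖ ^ 2 / t) := by
  have hn : 0 < ‖v‖ := norm_pos_iff.2 hv
  have h1 : ∀ s : ℂ, ENNReal.ofReal (Real.exp (-(t * ‖s / v / 2 + β‖ ^ 2))) =
      (fun s => ENNReal.ofReal (Real.exp (-(t / (4 * ‖v‖ ^ 2) * ‖s‖ ^ 2)))) (s + 2 * v * β) := by
    intro s
    simp only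
    congr 3
    have e : s / v / 2 + β = (s + 2 * v * β) / (2 * v) := by field_simp
    rw [e, norm_div, norm_mul, Complex.norm_ofNat, div_pow]
    field_simp
    norm_num
  simp_rw [h1]
  rw [lintegral_add_right_eq_self (fun s : ℂ => ENNReal.ofReal
    (Real.exp (-(t / (4 * ‖v‖ ^ 2) * ‖s‖ ^ 2)))) (2 * v * β), gau1 _ (by positivity)]
  congr 1
  field_simp

theorem ins_smul {p : ℕ} (l : Fin (p + 1)) (v : Fin (p + 1) → ℂ) (hv : v l ≠ 0) (s : ℂ)
    (y : Fin p → ℂ) :
    ins l s y = (s / v l) • v + ins l 0 (y - fun j => (s / v l) * v (l.succAbove j)) := by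
  apply ins_ext l
  · rw [ins_l, Pi.add_apply, ins_l, Pi.smul_apply, smul_eq_mul, add_zero, div_mul_cancel₀ _ hv]
  · intro j
    rw [ins_succ, Pi.add_apply, ins_succ, Pi.smul_apply, smul_eq_mul, Pi.sub_apply,
      add_sub_cancel]

/-- the integral of the Gaussian over the slice -/
theorem gau_slice {p : ℕ} (hg : StGAU) (l : Fin (p + 1)) (v b : Fin (p + 1) → ℂ) (hv : v l ≠ 0)
    (M : Matrix (Fin (p + 1)) (Fin (p + 1)) ℂ) (hM : Pd M) (L : (Fin (p + 1) → ℂ) → ℝ)
    (hL : Continuous L)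
    (hId : ∀ (σ : ℂ) (η : Fin (p + 1) → ℂ), η l = 0 →
      hf M (σ • v + η) = L η + ‖σ / 2 + ∑ j, b j * η j‖ ^ 2)
    (t : ℝ) (ht : 0 < t) :
    (∫⁻ y : Fin p → ℂ, ENNReal.ofReal (Real.exp (-(t * L (ins l 0 y))))) *
      ENNReal.ofReal (4 * Real.pi * ‖v l‖ ^ 2 / t) =
      ENNReal.ofReal (Real.pi ^ (p + 1) / (t ^ (p + 1) * M.det.re)) := by
  have hfs : ∀ ξ, hf ((t : ℂ) • M) ξ = t * hf M ξ := by
    intro ξ
    unfold hf
    rw [← Complex.re_ofReal_mul, Finset.mul_sum]
    congr 1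
    refine Finset.sum_congr rfl fun j _ => ?_
    rw [Finset.mul_sum]
    refine Finset.sum_congr rfl fun k _ => ?_
    rw [Matrix.smul_apply, smul_eq_mul]
    ring
  have htM : Pd ((t : ℂ) • M) := by
    refine ⟨?_, ?_⟩
    · unfold Matrix.IsHermitian
      rw [Matrix.conjTranspose_smul, hM.1.eq]
      congr 1
      exact Complex.conj_ofReal t
    · intro ξ hξ
      rw [hfs]
      exact mul_pos ht (hM.2 ξ hξ)
  obtain ⟨hint, hval⟩ := hg (p + 1) ((t : ℂ) • M) htM
  have hdet : ((t : ℂ) • M).det.re = t ^ (p + 1) * M.det.re := by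
    rw [Matrix.det_smul, Fintype.card_fin, ← Complex.ofReal_pow, Complex.re_ofReal_mul]
  rw [hdet] at hval
  have hcins : Continuous fun x : ℂ × (Fin p → ℂ) => ins l 0 x.2 :=
    (continuous_ins l).comp (continuous_const.prodMk continuous_snd)
  have hfc : Continuous (hf M) := continuous_hf M
  -- the function of `(s, y)`
  obtain ⟨Φ, hΦ⟩ : ∃ Φ : ℂ → (Fin p → ℂ) → ENNReal, Φ = fun s y =>
      ENNReal.ofReal (Real.exp (-(t * L (ins l 0 y)))) *
      ENNReal.ofReal (Real.exp (-(t * ‖s / v l / 2 + ∑ j, b j * ins l 0 y j‖ ^ 2))) := ⟨_, rfl⟩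
  have m1 : Measurable (fun x : ℂ × (Fin p → ℂ) =>
      ENNReal.ofReal (Real.exp (-(t * L (ins l 0 x.2))))) := by
    refine ENNReal.measurable_ofReal.comp (Continuous.measurable ?_)
    exact Real.continuous_exp.comp (continuous_const.mul (hL.comp hcins)).neg
  have m2 : Measurable (fun x : ℂ × (Fin p → ℂ) =>
      ENNReal.ofReal (Real.exp (-(t * ‖x.1 / v l / 2 + ∑ j, b j * ins l 0 x.2 j‖ ^ 2)))) := by
    refine ENNReal.measurable_ofReal.comp (Continuous.measurable ?_)
    refine Real.continuous_exp.comp (continuous_const.mul ((Continuous.norm ?_).pow 2)).neg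
    refine ((continuous_fst.div_const _).div_const _).add ?_
    refine continuous_finsetSum _ fun j _ => continuous_const.mul ?_
    exact (continuous_apply j).comp hcins
  have hΦm : Measurable (Function.uncurry Φ) := by
    rw [hΦ]
    exact m1.mul m2
  have h1 : ∫⁻ ξ : Fin (p + 1) → ℂ, ENNReal.ofReal (Real.exp (-hf ((t : ℂ) • M) ξ)) =
      ∫⁻ s, ∫⁻ y, Φ s y := by
    simp_rw [hfs]
    rw [fub l _ (by
      refine ENNReal.measurable_ofReal.comp (Continuous.measurable ?_)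
      exact Real.continuous_exp.comp (continuous_const.mul hfc).neg)]
    refine lintegral_congr fun s => ?_
    have h2 : ∀ y : Fin p → ℂ, ENNReal.ofReal (Real.exp (-(t * hf M (ins l s y)))) =
        Φ s (y - fun j => (s / v l) * v (l.succAbove j)) := by
      intro y
      rw [ins_smul l v hv, hId _ _ (ins_l l 0 _), hΦ]
      simp only
      rw [← ENNReal.ofReal_mul (Real.exp_pos _).le, ← Real.exp_add]
      congr 2
      ring
    simp_rw [h2]
    exact lintegral_sub_right_eq_self (Φ s) _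
  have h3 : ∫⁻ s, ∫⁻ y, Φ s y = ∫⁻ y, ∫⁻ s, Φ s y :=
    lintegral_lintegral_swap hΦm.aemeasurable
  have h4 : ∀ y, ∫⁻ s, Φ s y = ENNReal.ofReal (Real.exp (-(t * L (ins l 0 y)))) *
      ENNReal.ofReal (4 * Real.pi * ‖v l‖ ^ 2 / t) := by
    intro y
    rw [hΦ]
    simp only
    rw [lintegral_const_mul' _ _ ENNReal.ofReal_ne_top, gau2 t ht (v l) _ hv]
  rw [← lintegral_mul_const' _ _ ENNReal.ofReal_ne_top]
  simp_rw [← h4]
  rw [← h3, ← h1, ← ofReal_integral_eq_lintegral_ofReal hint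
    (Eventually.of_forall fun s => by positivity), hval]

theorem measurable_et {m : ℕ} (w : Fin m → ℕ) (l : Fin m) (z₀ : Fin m → ℂ) :
    Measurable (et w l z₀) := by
  rw [measurable_pi_iff]
  intro j
  unfold et
  have h1 : Measurable fun x : Fin m → ℂ => x l := measurable_pi_apply l
  have h2 : Measurable fun x : Fin m → ℂ => x j := measurable_pi_apply j
  exact (((measurable_const.div h1).pow_const _).mul h2).sub measurable_const

theorem int_slice {p : ℕ} (w : Fin (p + 1) → ℕ) (l : Fin (p + 1)) (hl : w l = 1)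
    (z₀ : Fin (p + 1) → ℂ) (hz₀ : z₀ l ≠ 0) (G : (Fin (p + 1) → ℂ) → ENNReal) (hG : Measurable G)
    (N' : ℕ) (R : ℝ) (hR : 0 < R) :
    ∫⁻ z in {z : Fin (p + 1) → ℂ | z l ≠ 0 ∧ ‖z l‖ < R},
        ENNReal.ofReal (‖z l / z₀ l‖ ^ N') * G (et w l z₀ z) =
      ENNReal.ofReal (2 * Real.pi / (N' + 2 * ∑ j, w j : ℕ) * ‖z₀ l‖ ^ 2 *
        (R / ‖z₀ l‖) ^ (N' + 2 * ∑ j, w j)) * ∫⁻ y : Fin p → ℂ, G (ins l 0 y) := by
  have hn : 0 < ‖z₀ l‖ := norm_pos_iff.2 hz₀
  obtain ⟨W', hW'⟩ : ∃ W' : ℕ, W' = ∑ j, w (l.succAbove j) := ⟨_, rfl⟩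
  have hsum : ∑ j, w j = 1 + W' := by
    rw [Fin.sum_univ_succAbove w l, hl, hW']
  obtain ⟨I, hI⟩ : ∃ I : ENNReal, I = ∫⁻ y : Fin p → ℂ, G (ins l 0 y) := ⟨_, rfl⟩
  have hml : Measurable fun x : Fin (p + 1) → ℂ => x l := measurable_pi_apply l
  have hS : MeasurableSet {z : Fin (p + 1) → ℂ | z l ≠ 0 ∧ ‖z l‖ < R} := by
    have h1 : MeasurableSet {z : Fin (p + 1) → ℂ | z l ≠ 0} :=
      (hml (measurableSet_singleton (0 : ℂ)).compl)
    have h2 : MeasurableSet {z : Fin (p + 1) → ℂ | ‖z l‖ < R} :=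
      measurableSet_lt hml.norm measurable_const
    exact h1.inter h2
  have hS' : MeasurableSet {s : ℂ | s ≠ 0 ∧ ‖s‖ < R} := by
    refine IsOpen.measurableSet ?_
    exact (isOpen_ne (x := (0 : ℂ))).inter (isOpen_lt continuous_norm continuous_const)
  have hf1 : Measurable fun z : Fin (p + 1) → ℂ =>
      ENNReal.ofReal (‖z l / z₀ l‖ ^ N') * G (et w l z₀ z) := by
    refine Measurable.mul ?_ (hG.comp (measurable_et w l z₀))
    exact ENNReal.measurable_ofReal.comp ((hml.div_const _).norm.pow_const _)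
  rw [← lintegral_indicator hS, fub l _ (hf1.indicator hS)]
  have h1 : ∀ s : ℂ, ∫⁻ y : Fin p → ℂ, {z : Fin (p + 1) → ℂ | z l ≠ 0 ∧ ‖z l‖ < R}.indicator
      (fun z => ENNReal.ofReal (‖z l / z₀ l‖ ^ N') * G (et w l z₀ z)) (ins l s y) =
      {s : ℂ | s ≠ 0 ∧ ‖s‖ < R}.indicator (fun s => ENNReal.ofReal (‖s‖ ^ (N' + 2 * W')) *
        (ENNReal.ofReal ((‖z₀ l‖ ^ (N' + 2 * W'))⁻¹) * I)) s := by
    intro s
    by_cases hs : s ∈ {s : ℂ | s ≠ 0 ∧ ‖s‖ < R}
    · have hs0 : s ≠ 0 := hs.1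
      rw [Set.indicator_of_mem hs]
      have h2 : ∀ y : Fin p → ℂ, {z : Fin (p + 1) → ℂ | z l ≠ 0 ∧ ‖z l‖ < R}.indicator
          (fun z => ENNReal.ofReal (‖z l / z₀ l‖ ^ N') * G (et w l z₀ z)) (ins l s y) =
          ENNReal.ofReal (‖s / z₀ l‖ ^ N') * G (et w l z₀ (ins l s y)) := by
        intro y
        rw [Set.indicator_of_mem, ins_l]
        refine ⟨?_, ?_⟩
        · rw [ins_l]; exact hs.1
        · rw [ins_l]; exact hs.2
      simp_rw [h2]
      rw [lintegral_const_mul' _ _ ENNReal.ofReal_ne_top]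
      have hc : s / z₀ l ≠ 0 := div_ne_zero hs0 hz₀
      have hcy : Measurable fun y : Fin p → ℂ => ins l s y :=
        ((continuous_ins l).comp (continuous_const.prodMk continuous_id)).measurable
      rw [scl_lint (fun j => w (l.succAbove j)) hc (fun y => G (et w l z₀ (ins l s y)))
        ((hG.comp (measurable_et w l z₀)).comp hcy), ← hW']
      have h3 : ∀ y : Fin p → ℂ,
          et w l z₀ (ins l s (scl (fun j => w (l.succAbove j)) (s / z₀ l) y)) =
          ins l 0 (y - fun j => z₀ (l.succAbove j)) := by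
        intro y
        apply ins_ext l
        · rw [ins_l]
          unfold et
          rw [ins_l, hl, pow_one, div_mul_cancel₀ _ hs0, sub_self]
        · intro j
          rw [ins_succ]
          unfold et scl
          rw [ins_l, ins_succ, Pi.sub_apply, ← mul_assoc, ← mul_pow]
          have : z₀ l / s * (s / z₀ l) = 1 := by field_simp
          rw [this, one_pow, one_mul]
      simp_rw [h3]
      rw [lintegral_sub_right_eq_self (fun y => G (ins l 0 y)), ← hI, ← mul_assoc, ← mul_assoc,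
        ← ENNReal.ofReal_mul (by positivity), ← ENNReal.ofReal_mul (by positivity), ← pow_add,
        norm_div, div_pow, div_eq_mul_inv]
    · rw [Set.indicator_of_notMem hs]
      have h2 : ∀ y : Fin p → ℂ, {z : Fin (p + 1) → ℂ | z l ≠ 0 ∧ ‖z l‖ < R}.indicator
          (fun z => ENNReal.ofReal (‖z l / z₀ l‖ ^ N') * G (et w l z₀ z)) (ins l s y) = 0 := by
        intro y
        rw [Set.indicator_of_notMem]
        rintro ⟨h3, h4⟩
        rw [ins_l] at h3 h4
        exact hs ⟨h3, h4⟩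
      simp_rw [h2]
      exact lintegral_zero
  simp_rw [h1]
  rw [lintegral_indicator hS', lintegral_mul_const, disc _ R hR, ← mul_assoc,
    ← ENNReal.ofReal_mul (by positivity), ← hI]
  · congr 2
    rw [hsum]
    have e1 : N' + 2 * (1 + W') = N' + 2 * W' + 2 := by ring
    rw [e1, div_pow, pow_add ‖z₀ l‖ _ 2]
    push_cast
    field_simp
    exact pow_add _ _ _
  · fun_prop

theorem int_main {m : ℕ} (hg : StGAU) (w : Fin m → ℕ) (l : Fin m) (hl : w l = 1)
    (z₀ v b : Fin m → ℂ) (hz₀ : z₀ l ≠ 0) (hv : v l = z₀ l)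
    (M : Matrix (Fin m) (Fin m) ℂ) (hM : Pd M) (L : (Fin m → ℂ) → ℝ)
    (hL : Continuous L)
    (hId : ∀ (σ : ℂ) (η : Fin m → ℂ), η l = 0 →
      hf M (σ • v + η) = L η + ‖σ / 2 + ∑ j, b j * η j‖ ^ 2)
    (N' : ℕ) (R t : ℝ) (hR : 0 < R) (ht : 0 < t) (hdet : 0 < M.det.re) :
    ∫⁻ z in {z : Fin m → ℂ | z l ≠ 0 ∧ ‖z l‖ < R},
        ENNReal.ofReal (‖z l / z₀ l‖ ^ N') * ENNReal.ofReal (Real.exp (-(t * L (et w l z₀ z)))) =
      ENNReal.ofReal (2 * Real.pi / (N' + 2 * ∑ j, w j : ℕ) *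
        (R / ‖z₀ l‖) ^ (N' + 2 * ∑ j, w j) *
        (Real.pi ^ (m - 1) / (4 * t ^ (m - 1) * M.det.re))) := by
  obtain ⟨p, rfl⟩ : ∃ p, m = p + 1 := ⟨m - 1, by have := l.2; omega⟩
  have hn : 0 < ‖z₀ l‖ := norm_pos_iff.2 hz₀
  have h1 := gau_slice hg l v b (by rw [hv]; exact hz₀) M hM L hL hId t ht
  rw [hv] at h1
  rw [int_slice w l hl z₀ hz₀ (fun η => ENNReal.ofReal (Real.exp (-(t * L η))))
    (ENNReal.measurable_ofReal.comp
      (Real.continuous_exp.comp (continuous_const.mul hL).neg).measurable) N' R hR]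
  have h2 : ∫⁻ y : Fin p → ℂ, ENNReal.ofReal (Real.exp (-(t * L (ins l 0 y)))) =
      ENNReal.ofReal (Real.pi ^ p / (4 * ‖z₀ l‖ ^ 2 * t ^ p * M.det.re)) := by
    have hpos : 0 < 4 * Real.pi * ‖z₀ l‖ ^ 2 / t := by positivity
    have h3 : ENNReal.ofReal (Real.pi ^ (p + 1) / (t ^ (p + 1) * M.det.re)) =
        ENNReal.ofReal (Real.pi ^ p / (4 * ‖z₀ l‖ ^ 2 * t ^ p * M.det.re)) *
        ENNReal.ofReal (4 * Real.pi * ‖z₀ l‖ ^ 2 / t) := by
      rw [← ENNReal.ofReal_mul (by positivity)]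
      congr 1
      rw [pow_succ, pow_succ]
      field_simp
    rw [h3] at h1
    exact (ENNReal.mul_left_inj (by
      rw [Ne, ENNReal.ofReal_eq_zero, not_le]; exact hpos) ENNReal.ofReal_ne_top).1 h1
  rw [h2, ← ENNReal.ofReal_mul (by positivity)]
  congr 1
  rw [Nat.add_sub_cancel]
  field_simp

end Pool.Agent.Helper73.KP
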