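import Pool.Agent.Helper73.KP.LapA
import Pool.Agent.Helper73.KP.LapB

/-! Project KP, module LAP, part D: the logarithm of the potential. -/

set_option autoImplicit false

namespace Pool.Agent.Helper73.KP

open Pool.Agent.Helper52.KP hiding sq
open Pool.Agent.Helper98.KP (hCAL)
open Pool.Agent.Helper22.KP (hEUL)
open MeasureTheory Filter
open scoped ContDiff ComplexOrder Topology

theorem isOpen_U (C : Cone) : IsOpen C.U := by
  have hc : Continuous fun x : Fin C.m → ℂ => ev C.Δ x := MvPolynomial.continuous_eval _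
  exact isOpen_ne_fun hc continuous_const

theorem upos {C : Cone} (hC : Good C) {z : Fin C.m → ℂ} (hz : z ∈ C.U) : 0 < C.u z := by
  obtain ⟨a, b, ha, hab⟩ := hC.ubd
  exact lt_of_lt_of_le (mul_pos ha (hC.Xpos z hz)) (hab z hz).1

theorem exists_l {C : Cone} (hC : Good C) {z : Fin C.m → ℂ} (hz : z ∈ C.U) :
    ∃ l, C.w l = 1 ∧ z l ≠ 0 := by
  by_contra h
  push Not at h
  have h1 : scl C.w 2 z = z := by
    funext j
    unfold scl
    rcases hC.w01 j with h0 | h0
    · rw [h0, pow_zero, one_mul]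
    · rw [h j h0, mul_zero]
  have h2 := hC.uhom z hz 2 two_ne_zero
  rw [h1, Complex.norm_ofNat] at h2
  have h3 := upos hC hz
  linarith

/-- the logarithm of the potential -/
noncomputable def lu (C : Cone) (z : Fin C.m → ℂ) : ℝ := Real.log (C.u z)

theorem u_contDiffAt {C : Cone} (hC : Good C) {z : Fin C.m → ℂ} (hz : z ∈ C.U) :
    ContDiffAt ℝ ∞ C.u z := hC.usm.contDiffAt ((isOpen_U C).mem_nhds hz)

theorem lu_contDiffAt {C : Cone} (hC : Good C) {z : Fin C.m → ℂ} (hz : z ∈ C.U) :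
    ContDiffAt ℝ ∞ (lu C) z := (u_contDiffAt hC hz).log (upos hC hz).ne'

theorem lu_contDiffOn {C : Cone} (hC : Good C) : ContDiffOn ℝ ∞ (lu C) C.U :=
  fun _ hz => (lu_contDiffAt hC hz).contDiffWithinAt

theorem cf_contDiffOn {m : ℕ} {f : (Fin m → ℂ) → ℝ} {U : Set (Fin m → ℂ)}
    (h : ContDiffOn ℝ ∞ f U) : ContDiffOn ℝ ∞ (cf f) U :=
  Complex.ofRealCLM.contDiff.comp_contDiffOn h

theorem cf_differentiableAt {m : ℕ} {f : (Fin m → ℂ) → ℝ} {z : Fin m → ℂ}
    (h : DifferentiableAt ℝ f z) : DifferentiableAt ℝ (cf f) z :=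
  Complex.ofRealCLM.differentiableAt.comp z h

theorem dz_congr {m : ℕ} {f g : (Fin m → ℂ) → ℂ} {z : Fin m → ℂ} (h : f =ᶠ[𝓝 z] g) (j : Fin m) :
    dz j f z = dz j g z := by
  unfold dz
  rw [h.fderiv_eq]

theorem db_congr {m : ℕ} {f g : (Fin m → ℂ) → ℂ} {z : Fin m → ℂ} (h : f =ᶠ[𝓝 z] g) (j : Fin m) :
    db j f z = db j g z := by
  unfold db
  rw [h.fderiv_eq]

theorem cfu_eq {C : Cone} (hC : Good C) {z : Fin C.m → ℂ} (hz : z ∈ C.U) :
    cf C.u =ᶠ[𝓝 z] fun x => Complex.exp (cf (lu C) x) := by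
  filter_upwards [(isOpen_U C).mem_nhds hz] with x hx
  unfold cf lu
  rw [← Complex.ofReal_exp, Real.exp_log (upos hC hx)]

theorem d_u {C : Cone} (hC : Good C) {z : Fin C.m → ℂ} (hz : z ∈ C.U) (j : Fin C.m) :
    dz j (cf C.u) z = (C.u z : ℂ) * dz j (cf (lu C)) z ∧
    db j (cf C.u) z = (C.u z : ℂ) * db j (cf (lu C)) z := by
  have hd : DifferentiableAt ℝ (cf (lu C)) z :=
    cf_differentiableAt ((lu_contDiffAt hC hz).differentiableAt (by simp))
  have h1 := (hCAL C.m j j (cf (lu C)) (cf (lu C)) z).1 hd hd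
  have h2 : Complex.exp (cf (lu C) z) = (C.u z : ℂ) := ((cfu_eq hC hz).self_of_nhds).symm
  constructor
  · rw [dz_congr (cfu_eq hC hz) j, h1.2.2.2.2.2.2.1, h2]
  · rw [db_congr (cfu_eq hC hz) j, h1.2.2.2.2.2.2.2, h2]

theorem hes_u {C : Cone} (hC : Good C) {z : Fin C.m → ℂ} (hz : z ∈ C.U) (j k : Fin C.m) :
    hes C.u z j k = (C.u z : ℂ) * (hes (lu C) z j k + dz j (cf (lu C)) z * db k (cf (lu C)) z) := by
  have hU := isOpen_U C
  unfold hes
  rw [Matrix.of_apply, Matrix.of_apply]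
  have he : db k (cf C.u) =ᶠ[𝓝 z] fun x => cf C.u x * db k (cf (lu C)) x := by
    filter_upwards [hU.mem_nhds hz] with x hx
    exact (d_u hC hx k).2
  rw [dz_congr he j]
  have hd1 : DifferentiableAt ℝ (cf C.u) z :=
    cf_differentiableAt ((u_contDiffAt hC hz).differentiableAt (by simp))
  have hd2 : DifferentiableAt ℝ (db k (cf (lu C))) z := by
    have h3 := ((hCAL C.m k k (cf (lu C)) (cf (lu C)) z).2.2.2.2 C.U hU
      (cf_contDiffOn (lu_contDiffOn hC))).2
    exact (h3.contDiffAt (hU.mem_nhds hz)).differentiableAt (by simp)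
  have h1 := (hCAL C.m j j (cf C.u) (db k (cf (lu C))) z).1 hd1 hd2
  rw [h1.2.2.1, (d_u hC hz j).1]
  unfold cf
  ring

theorem db_lu {C : Cone} (hC : Good C) {z : Fin C.m → ℂ} (hz : z ∈ C.U) (k : Fin C.m) :
    db k (cf (lu C)) z = star (dz k (cf (lu C)) z) := by
  have hd : DifferentiableAt ℝ (cf (lu C)) z :=
    cf_differentiableAt ((lu_contDiffAt hC hz).differentiableAt (by simp))
  have h1 := (hCAL C.m k k (cf (lu C)) (cf (lu C)) z).1 hd hd
  rw [← h1.2.2.2.2.2.1]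
  congr 1
  funext x
  unfold cf
  rw [Complex.star_def, Complex.conj_ofReal]

/-- Euler field -/
def ve (C : Cone) (z : Fin C.m → ℂ) : Fin C.m → ℂ := fun j => (C.w j : ℂ) * z j

theorem eul1 {C : Cone} (hC : Good C) {z : Fin C.m → ℂ} (hz : z ∈ C.U) :
    ∑ j, dz j (cf (lu C)) z * ve C z j = 1 / 2 := by
  have h1 := (hEUL hCAL C hC z hz).1
  have hu : (C.u z : ℂ) ≠ 0 := by exact_mod_cast (upos hC hz).ne'
  have h2 : (C.u z : ℂ) * ∑ j, dz j (cf (lu C)) z * ve C z j = (C.u z : ℂ) * (1 / 2) := by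
    rw [Finset.mul_sum, mul_one_div, ← h1]
    refine Finset.sum_congr rfl fun j _ => ?_
    rw [(d_u hC hz j).1]
    unfold ve
    ring
  exact mul_left_cancel₀ hu h2

theorem eul2 {C : Cone} (hC : Good C) {z : Fin C.m → ℂ} (hz : z ∈ C.U) (k : Fin C.m) :
    ∑ j, hes (lu C) z j k * ve C z j = 0 := by
  have h1 := (hEUL hCAL C hC z hz).2.1 k
  have hu : (C.u z : ℂ) ≠ 0 := by exact_mod_cast (upos hC hz).ne'
  have h2 : (C.u z : ℂ) * (∑ j, hes (lu C) z j k * ve C z j +
      (∑ j, dz j (cf (lu C)) z * ve C z j) * db k (cf (lu C)) z) =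
      (C.u z : ℂ) * (db k (cf (lu C)) z / 2) := by
    rw [Finset.sum_mul, ← Finset.sum_add_distrib, Finset.mul_sum, ← mul_div_assoc,
      ← (d_u hC hz k).2, ← h1]
    refine Finset.sum_congr rfl fun j _ => ?_
    rw [hes_u hC hz]
    unfold ve
    ring
  have h3 := mul_left_cancel₀ hu h2
  rw [eul1 hC hz] at h3
  linear_combination h3

theorem hes_lu_herm {C : Cone} (hC : Good C) {z : Fin C.m → ℂ} (hz : z ∈ C.U) (j k : Fin C.m) :
    star (hes (lu C) z k j) = hes (lu C) z j k := by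
  have hu : (C.u z : ℂ) ≠ 0 := by exact_mod_cast (upos hC hz).ne'
  have h1 : star (hes C.u z k j) = hes C.u z j k := (hC.uhes z hz).1.1.apply j k
  rw [hes_u hC hz, hes_u hC hz, star_mul', star_add, star_mul', db_lu hC hz, db_lu hC hz,
    star_star] at h1
  rw [Complex.star_def, Complex.conj_ofReal] at h1
  have h2 := mul_left_cancel₀ hu h1
  simp only [Complex.star_def] at h2 ⊢
  linear_combination h2

/-- the fundamental identity -/
theorem hf_id {C : Cone} (hC : Good C) {z : Fin C.m → ℂ} (hz : z ∈ C.U) (σ : ℂ)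
    (η : Fin C.m → ℂ) :
    hf (((C.u z : ℂ)⁻¹) • hes C.u z) (σ • ve C z + η) =
      hf (hes (lu C) z) η + ‖σ / 2 + ∑ j, dz j (cf (lu C)) z * η j‖ ^ 2 := by
  have hu : (C.u z : ℂ) ≠ 0 := by exact_mod_cast (upos hC hz).ne'
  obtain ⟨A, hA⟩ : ∃ A, A = hes (lu C) z := ⟨_, rfl⟩
  obtain ⟨b, hb⟩ : ∃ b : Fin C.m → ℂ, b = fun j => dz j (cf (lu C)) z := ⟨_, rfl⟩
  have hM : ∀ j k, (((C.u z : ℂ)⁻¹) • hes C.u z) j k = A j k + b j * star (b k) := by
    intro j k
    rw [Matrix.smul_apply, hes_u hC hz, smul_eq_mul, inv_mul_cancel_left₀ hu, db_lu hC hz, hA, hb]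
  have h1 : ∀ ξ : Fin C.m → ℂ, hf (((C.u z : ℂ)⁻¹) • hes C.u z) ξ = hf A ξ +
      ‖∑ j, b j * ξ j‖ ^ 2 := by
    intro ξ
    have h2 : ((‖∑ j, b j * ξ j‖ ^ 2 : ℝ) : ℂ) = ∑ j, ∑ k, b j * star (b k) * ξ j * star (ξ k) := by
      have h3 : ((‖∑ j, b j * ξ j‖ ^ 2 : ℝ) : ℂ) = (∑ j, b j * ξ j) * star (∑ k, b k * ξ k) := by
        rw [Complex.star_def, Complex.mul_conj, Complex.normSq_eq_norm_sq]
      rw [h3, star_sum, Finset.sum_mul_sum]
      refine Finset.sum_congr rfl fun j _ => Finset.sum_congr rfl fun k _ => ?_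
      rw [star_mul']
      ring
    have h4 : ‖∑ j, b j * ξ j‖ ^ 2 = (∑ j, ∑ k, b j * star (b k) * ξ j * star (ξ k)).re := by
      rw [← h2, Complex.ofReal_re]
    rw [h4]
    unfold hf
    rw [← Complex.add_re, ← Finset.sum_add_distrib]
    congr 1
    refine Finset.sum_congr rfl fun j _ => ?_
    rw [← Finset.sum_add_distrib]
    refine Finset.sum_congr rfl fun k _ => ?_
    rw [hM]
    ring
  have hv1 : ∀ k, ∑ j, A j k * ve C z j = 0 := by
    intro k
    rw [hA]
    exact eul2 hC hz k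
  have hv2 : ∀ j, ∑ k, A j k * star (ve C z k) = 0 := by
    intro j
    have := congrArg star (hv1 j)
    rw [star_sum, star_zero] at this
    rw [← this]
    refine Finset.sum_congr rfl fun k _ => ?_
    rw [star_mul', hA, hes_lu_herm hC hz j k]
  have h2 : hf A (σ • ve C z + η) = hf A η := by
    unfold hf
    congr 1
    have e1 : ∀ j, ∑ k, A j k * (σ • ve C z + η) j * star ((σ • ve C z + η) k) =
        (σ • ve C z + η) j * ∑ k, A j k * star (η k) := by
      intro j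
      have e2 : ∑ k, A j k * (σ • ve C z + η) j * star ((σ • ve C z + η) k) =
          (σ • ve C z + η) j * star σ * ∑ k, A j k * star (ve C z k) +
          (σ • ve C z + η) j * ∑ k, A j k * star (η k) := by
        rw [Finset.mul_sum, Finset.mul_sum, ← Finset.sum_add_distrib]
        refine Finset.sum_congr rfl fun k _ => ?_
        rw [Pi.add_apply (σ • ve C z) η k, Pi.smul_apply, smul_eq_mul, star_add, star_mul']
        ring
      rw [e2, hv2, mul_zero, zero_add]
    simp_rw [e1]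
    have e3 : ∑ j, (σ • ve C z + η) j * ∑ k, A j k * star (η k) =
        σ * ∑ k, star (η k) * ∑ j, A j k * ve C z j +
        ∑ j, ∑ k, A j k * η j * star (η k) := by
      have e4 : ∑ k, star (η k) * ∑ j, A j k * ve C z j =
          ∑ j, ve C z j * ∑ k, A j k * star (η k) := by
        simp_rw [Finset.mul_sum]
        rw [Finset.sum_comm]
        refine Finset.sum_congr rfl fun j _ => Finset.sum_congr rfl fun k _ => ?_
        ring
      rw [e4, Finset.mul_sum, ← Finset.sum_add_distrib]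
      refine Finset.sum_congr rfl fun j _ => ?_
      rw [Pi.add_apply, Pi.smul_apply, smul_eq_mul, add_mul, mul_assoc]
      congr 1
      rw [Finset.mul_sum]
      refine Finset.sum_congr rfl fun k _ => ?_
      ring
    rw [e3]
    simp_rw [hv1]
    simp
  have h3 : ∑ j, b j * (σ • ve C z + η) j = σ / 2 + ∑ j, b j * η j := by
    have e1 := eul1 hC hz
    have e2 : ∑ j, b j * (σ • ve C z + η) j = σ * ∑ j, b j * ve C z j + ∑ j, b j * η j := by
      rw [Finset.mul_sum, ← Finset.sum_add_distrib]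
      refine Finset.sum_congr rfl fun j _ => ?_
      rw [Pi.add_apply, Pi.smul_apply, smul_eq_mul]
      ring
    rw [e2]
    have e3 : ∑ j, b j * ve C z j = 1 / 2 := by rw [hb]; exact e1
    rw [e3]
    ring
  rw [h1, h2, h3, hA, hb]

/-- the matrix `hes u / u` is positive definite with determinant `|J|² / u^m` -/
theorem M_pd {C : Cone} (hC : Good C) {z : Fin C.m → ℂ} (hz : z ∈ C.U) :
    Pd (((C.u z : ℂ)⁻¹) • hes C.u z) ∧
    (((C.u z : ℂ)⁻¹) • hes C.u z).det.re = ‖ev C.J z‖ ^ 2 / C.u z ^ C.m := by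
  have hu := upos hC hz
  obtain ⟨h1, h2⟩ := hC.uhes z hz
  refine ⟨⟨?_, ?_⟩, ?_⟩
  · unfold Matrix.IsHermitian
    rw [Matrix.conjTranspose_smul, h1.1.eq]
    congr 1
    rw [← Complex.ofReal_inv]
    exact Complex.conj_ofReal _
  · intro ξ hξ
    have e : hf (((C.u z : ℂ)⁻¹) • hes C.u z) ξ = (C.u z)⁻¹ * hf (hes C.u z) ξ := by
      unfold hf
      rw [← Complex.re_ofReal_mul, Finset.mul_sum]
      congr 1
      refine Finset.sum_congr rfl fun j _ => ?_
      rw [Finset.mul_sum]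
      refine Finset.sum_congr rfl fun k _ => ?_
      rw [Matrix.smul_apply, smul_eq_mul]
      push_cast
      ring
    rw [e]
    exact mul_pos (inv_pos.2 hu) (h1.2 ξ hξ)
  · rw [Matrix.det_smul, Fintype.card_fin, h2, ← Complex.ofReal_inv, ← Complex.ofReal_pow,
      ← Complex.ofReal_mul, Complex.ofReal_re, inv_pow]
    ring

/-- positivity on the slice -/
theorem slice_pos {C : Cone} (hC : Good C) {z : Fin C.m → ℂ} (hz : z ∈ C.U) (l : Fin C.m)
    (hl : C.w l = 1) (hzl : z l ≠ 0) :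
    ∃ c : ℝ, 0 < c ∧ ∀ η : Fin C.m → ℂ, η l = 0 → c * sn η ≤ hf (hes (lu C) z) η := by
  have h := pos_lower (hf (hes (lu C) z)) (continuous_hf _) {η | η l = 0}
    (isClosed_eq (continuous_apply l) continuous_const)
    (fun r ξ hξ => by
      change (r • ξ) l = 0
      have : ξ l = 0 := hξ
      rw [Pi.smul_apply, this, smul_zero]) (hf_smul _) ?_
  · obtain ⟨c, hc, hcc⟩ := h
    exact ⟨c, hc, fun η hη => hcc η hη⟩
  · intro η hη h0
    have hη' : η l = 0 := hη
    obtain ⟨σ, hσ⟩ : ∃ σ : ℂ, σ = -2 * ∑ j, dz j (cf (lu C)) z * η j := ⟨_, rfl⟩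
    have h1 := hf_id hC hz σ η
    have h2 : σ / 2 + ∑ j, dz j (cf (lu C)) z * η j = 0 := by rw [hσ]; ring
    rw [h2, norm_zero, zero_pow two_ne_zero, add_zero] at h1
    rw [← h1]
    apply (M_pd hC hz).1.2
    intro h3
    apply h0
    have h4 := congrFun h3 l
    rw [Pi.add_apply, Pi.smul_apply, hη', add_zero, Pi.zero_apply, smul_eq_mul] at h4
    unfold ve at h4
    rw [hl, Nat.cast_one, one_mul] at h4
    have h5 : σ = 0 := (mul_eq_zero.1 h4).resolve_right hzl
    rw [h5, zero_smul, zero_add] at h3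
    exact h3

end Pool.Agent.Helper73.KP
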