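import Pool.Agent.Helper73.KP.LapD

/-! Project KP, module LAP, part E: scaling of derivatives, the cutoff function. -/

set_option autoImplicit false

namespace Pool.Agent.Helper73.KP

open Pool.Agent.Helper52.KP hiding sq
open Pool.Agent.Helper98.KP (hCAL)
open Pool.Agent.Helper22.KP (hEUL)
open MeasureTheory Filter
open scoped ContDiff ComplexOrder Topology

section Scl

variable {m : ℕ}

/-- the scaling as a real linear map -/
noncomputable def sclL (w : Fin m → ℕ) (a : ℂ) : (Fin m → ℂ) →L[ℝ] (Fin m → ℂ) :=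
  ContinuousLinearMap.pi fun j =>
    ((a ^ w j) • (ContinuousLinearMap.proj j : (Fin m → ℂ) →L[ℂ] ℂ)).restrictScalars ℝ

theorem sclL_apply (w : Fin m → ℕ) (a : ℂ) (y : Fin m → ℂ) : sclL w a y = scl w a y := by
  funext j
  unfold sclL scl
  simp

theorem scl_hasFDerivAt (w : Fin m → ℕ) (a : ℂ) (x : Fin m → ℂ) :
    HasFDerivAt (scl w a) (sclL w a) x := by
  have h := (sclL w a).hasFDerivAt (x := x)
  have e : (scl w a) = fun y => sclL w a y := by
    funext y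
    exact (sclL_apply w a y).symm
  rw [e]
  exact h

theorem scl_continuous (w : Fin m → ℕ) (a : ℂ) : Continuous (scl w a) := by
  have e : (scl w a) = fun y => sclL w a y := by
    funext y
    exact (sclL_apply w a y).symm
  rw [e]
  exact (sclL w a).continuous

theorem d_scl (w : Fin m → ℕ) (a : ℂ) (f : (Fin m → ℂ) → ℂ) (x : Fin m → ℂ)
    (hf : DifferentiableAt ℝ f (scl w a x)) (j : Fin m) :
    dz j (fun y => f (scl w a y)) x = a ^ w j * dz j f (scl w a x) ∧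
    db j (fun y => f (scl w a y)) x = star (a ^ w j) * db j f (scl w a x) := by
  have h1 : HasFDerivAt (fun y => f (scl w a y)) ((fderiv ℝ f (scl w a x)).comp (sclL w a)) x :=
    hf.hasFDerivAt.comp x (scl_hasFDerivAt w a x)
  have h2 := ((hCAL m j j f f (scl w a x)).2.1 hf).1
  have h3 : ∀ c : ℂ, fderiv ℝ f (scl w a x) (sclL w a (Pi.single j c)) =
      dz j f (scl w a x) * (a ^ w j * c) + db j f (scl w a x) * star (a ^ w j * c) := by
    intro c
    rw [h2, Finset.sum_eq_single j]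
    · rw [sclL_apply]
      unfold scl
      rw [Pi.single_eq_same]
    · intro i _ hi
      rw [sclL_apply]
      unfold scl
      rw [Pi.single_eq_of_ne hi, mul_zero, star_zero, mul_zero, mul_zero, add_zero]
    · intro h
      exact absurd (Finset.mem_univ j) h
  have h4 : ∀ c : ℂ, fderiv ℝ (fun y => f (scl w a y)) x (Pi.single j c) =
      dz j f (scl w a x) * (a ^ w j * c) + db j f (scl w a x) * star (a ^ w j * c) := by
    intro c
    rw [h1.fderiv, ContinuousLinearMap.comp_apply, h3]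
  obtain ⟨P, hP⟩ : ∃ P, P = dz j f (scl w a x) := ⟨_, rfl⟩
  obtain ⟨Q, hQ⟩ : ∃ Q, Q = db j f (scl w a x) := ⟨_, rfl⟩
  rw [← hP, ← hQ]
  rw [← hP, ← hQ] at h4
  constructor
  · unfold dz
    rw [h4, h4, star_mul', star_mul', star_one]
    simp only [Complex.star_def, Complex.conj_I]
    linear_combination (-(P * a ^ w j) / 2 + Q * (starRingEnd ℂ) (a ^ w j) / 2) * Complex.I_sq
  · unfold db
    rw [h4, h4, star_mul', star_mul', star_one]
    simp only [Complex.star_def, Complex.conj_I]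
    linear_combination ((P * a ^ w j) / 2 - Q * (starRingEnd ℂ) (a ^ w j) / 2) * Complex.I_sq

theorem d_const_mul (c : ℂ) (f : (Fin m → ℂ) → ℂ) (x : Fin m → ℂ)
    (hf : DifferentiableAt ℝ f x) (j : Fin m) :
    dz j (fun y => c * f y) x = c * dz j f x ∧ db j (fun y => c * f y) x = c * db j f x := by
  have h1 : HasFDerivAt (fun y => c * f y) (c • fderiv ℝ f x) x := hf.hasFDerivAt.const_mul c
  constructor
  · unfold dz
    rw [h1.fderiv]
    simp only [smul_apply, smul_eq_mul]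
    ring
  · unfold db
    rw [h1.fderiv]
    simp only [smul_apply, smul_eq_mul]
    ring

end Scl

theorem hes_scl {C : Cone} (hC : Good C) {y : Fin C.m → ℂ} (hy : y ∈ C.U) (a : ℂ) (ha : a ≠ 0)
    (j k : Fin C.m) :
    hes C.u (scl C.w a y) j k * a ^ C.w j * star (a ^ C.w k) = (‖a‖ : ℂ) * hes C.u y j k := by
  have hU := isOpen_U C
  have hsm := cf_contDiffOn hC.usm
  have hdu : ∀ x ∈ C.U, DifferentiableAt ℝ (cf C.u) x := fun x hx =>
    (hsm.contDiffAt (hU.mem_nhds hx)).differentiableAt (by simp)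
  have h1 : ∀ x ∈ C.U, star (a ^ C.w k) * db k (cf C.u) (scl C.w a x) =
      (‖a‖ : ℂ) * db k (cf C.u) x := by
    intro x hx
    rw [← (d_scl C.w a (cf C.u) x (hdu _ (hC.sclU a ha x hx)) k).2,
      ← (d_const_mul (‖a‖ : ℂ) (cf C.u) x (hdu x hx) k).2]
    apply db_congr
    filter_upwards [hU.mem_nhds hx] with x' hx'
    unfold cf
    rw [hC.uhom x' hx' a ha]
    push_cast
    rfl
  have hdb := ((hCAL C.m k k (cf C.u) (cf C.u) y).2.2.2.2 C.U hU hsm).2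
  have hddb : ∀ x ∈ C.U, DifferentiableAt ℝ (db k (cf C.u)) x := fun x hx =>
    (hdb.contDiffAt (hU.mem_nhds hx)).differentiableAt (by simp)
  have h2 : dz j (fun x => star (a ^ C.w k) * db k (cf C.u) (scl C.w a x)) y =
      dz j (fun x => (‖a‖ : ℂ) * db k (cf C.u) x) y := by
    apply dz_congr
    filter_upwards [hU.mem_nhds hy] with x hx
    exact h1 x hx
  have hay := hC.sclU a ha y hy
  have hd3 : DifferentiableAt ℝ (fun x => db k (cf C.u) (scl C.w a x)) y :=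
    (hddb _ hay).comp y (scl_hasFDerivAt C.w a y).differentiableAt
  rw [(d_const_mul (star (a ^ C.w k)) _ y hd3 j).1, (d_scl C.w a _ y (hddb _ hay) j).1,
    (d_const_mul (‖a‖ : ℂ) _ y (hddb y hy) j).1] at h2
  unfold hes
  rw [Matrix.of_apply, Matrix.of_apply]
  linear_combination h2

theorem db_scl {C : Cone} (hC : Good C) (χ : (Fin C.m → ℂ) → ℝ) (hχ : ContDiffOn ℝ ∞ χ C.U)
    (hχs : ∀ z ∈ C.U, ∀ a : ℂ, a ≠ 0 → χ (scl C.w a z) = χ z)
    {y : Fin C.m → ℂ} (hy : y ∈ C.U) (a : ℂ) (ha : a ≠ 0) (j : Fin C.m) :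
    db j (cf χ) (scl C.w a y) * star (a ^ C.w j) = db j (cf χ) y := by
  have hU := isOpen_U C
  have hsm := cf_contDiffOn hχ
  have hd : ∀ x ∈ C.U, DifferentiableAt ℝ (cf χ) x := fun x hx =>
    (hsm.contDiffAt (hU.mem_nhds hx)).differentiableAt (by simp)
  rw [mul_comm, ← (d_scl C.w a (cf χ) y (hd _ (hC.sclU a ha y hy)) j).2]
  apply db_congr
  filter_upwards [hU.mem_nhds hy] with x hx
  unfold cf
  rw [hχs x hx a ha]

/-- scale invariance of the gradient bound -/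
theorem grad_scl {C : Cone} (hC : Good C) (χ : (Fin C.m → ℂ) → ℝ) (hχ : ContDiffOn ℝ ∞ χ C.U)
    (hχs : ∀ z ∈ C.U, ∀ a : ℂ, a ≠ 0 → χ (scl C.w a z) = χ z)
    {y : Fin C.m → ℂ} (hy : y ∈ C.U) (a : ℂ) (ha : a ≠ 0) (B : ℝ)
    (hB : ∀ ξ, ‖∑ j, db j (cf χ) y * star (ξ j)‖ ^ 2 * C.u y ≤ B * hf (hes C.u y) ξ) :
    ∀ ξ, ‖∑ j, db j (cf χ) (scl C.w a y) * star (ξ j)‖ ^ 2 * C.u (scl C.w a y) ≤
      B * hf (hes C.u (scl C.w a y)) ξ := by
  intro ξ
  have hap : ∀ j, a ^ C.w j ≠ 0 := fun j => pow_ne_zero _ ha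
  obtain ⟨ξ', hξ'⟩ : ∃ ξ' : Fin C.m → ℂ, ξ' = fun j => ξ j / a ^ C.w j := ⟨_, rfl⟩
  have hξ : ∀ j, ξ j = a ^ C.w j * ξ' j := by
    intro j
    rw [hξ']
    have := hap j
    field_simp
  have e1 : ∑ j, db j (cf χ) (scl C.w a y) * star (ξ j) = ∑ j, db j (cf χ) y * star (ξ' j) := by
    refine Finset.sum_congr rfl fun j _ => ?_
    rw [hξ j, star_mul', ← mul_assoc, db_scl hC χ hχ hχs hy a ha j]
  have e2 : hf (hes C.u (scl C.w a y)) ξ = ‖a‖ * hf (hes C.u y) ξ' := by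
    unfold hf
    rw [← Complex.re_ofReal_mul, Finset.mul_sum]
    congr 1
    refine Finset.sum_congr rfl fun j _ => ?_
    rw [Finset.mul_sum]
    refine Finset.sum_congr rfl fun k _ => ?_
    rw [hξ j, hξ k, star_mul']
    linear_combination (ξ' j * star (ξ' k)) * hes_scl hC hy a ha j k
  rw [e1, e2, hC.uhom y hy a ha]
  have h := mul_le_mul_of_nonneg_left (hB ξ') (norm_nonneg a)
  calc ‖∑ j, db j (cf χ) y * star (ξ' j)‖ ^ 2 * (‖a‖ * C.u y)
      = ‖a‖ * (‖∑ j, db j (cf χ) y * star (ξ' j)‖ ^ 2 * C.u y) := by ring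
    _ ≤ ‖a‖ * (B * hf (hes C.u y) ξ') := h
    _ = B * (‖a‖ * hf (hes C.u y) ξ') := by ring

theorem cs_sn {m : ℕ} (b ξ : Fin m → ℂ) : ‖∑ j, b j * star (ξ j)‖ ^ 2 ≤ sn b * sn ξ := by
  have h1 : ‖∑ j, b j * star (ξ j)‖ ≤ ∑ j, ‖b j‖ * ‖ξ j‖ := by
    refine (norm_sum_le _ _).trans (le_of_eq ?_)
    refine Finset.sum_congr rfl fun j _ => ?_
    rw [norm_mul, norm_star]
  calc ‖∑ j, b j * star (ξ j)‖ ^ 2 ≤ (∑ j, ‖b j‖ * ‖ξ j‖) ^ 2 :=
        pow_le_pow_left₀ (norm_nonneg _) h1 2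
    _ ≤ (∑ j, ‖b j‖ ^ 2) * ∑ j, ‖ξ j‖ ^ 2 := Finset.sum_mul_sq_le_sq_mul_sq _ _ _

/-- lower bound of the Levi form near `z₀` -/
theorem hes_lower {C : Cone} (hC : Good C) {z₀ : Fin C.m → ℂ} (hz₀ : z₀ ∈ C.U) :
    ∃ c : ℝ, 0 < c ∧ ∀ᶠ y in 𝓝 z₀, ∀ ξ, c * sn ξ ≤ hf (hes C.u y) ξ := by
  obtain ⟨c, hc, hcc⟩ := pos_lower (hf (hes C.u z₀)) (continuous_hf _) Set.univ isClosed_univ
    (fun r ξ _ => Set.mem_univ _) (hf_smul _) (fun ξ _ h0 => (hC.uhes z₀ hz₀).1.2 ξ h0)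
  refine ⟨c / 2, by positivity, ?_⟩
  have hU := isOpen_U C
  have hsm := cf_contDiffOn hC.usm
  obtain ⟨δ, hδ⟩ : ∃ δ : ℝ, δ = c / (2 * (C.m ^ 2 + 1)) := ⟨_, rfl⟩
  have hδ0 : 0 < δ := by rw [hδ]; positivity
  have hcont : ∀ j k, ContinuousAt (fun y => hes C.u y j k) z₀ := by
    intro j k
    have h1 := ((hCAL C.m k k (cf C.u) (cf C.u) z₀).2.2.2.2 C.U hU hsm).2
    have h2 := ((hCAL C.m j j (db k (cf C.u)) (cf C.u) z₀).2.2.2.2 C.U hU h1).1
    exact (h2.contDiffAt (hU.mem_nhds hz₀)).continuousAt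
  have hev : ∀ᶠ y in 𝓝 z₀, ∀ j k, ‖hes C.u y j k - hes C.u z₀ j k‖ ≤ δ := by
    rw [eventually_all]
    intro j
    rw [eventually_all]
    intro k
    have h1 := Metric.tendsto_nhds.1 (hcont j k) δ hδ0
    filter_upwards [h1] with y hy
    rw [dist_eq_norm] at hy
    exact hy.le
  filter_upwards [hev] with y hy
  intro ξ
  have h1 := hf_sub_le _ _ δ hy ξ
  have h2 := hcc ξ (Set.mem_univ _)
  have h3 := (abs_le.1 h1).1
  have h4 : (C.m : ℝ) ^ 2 * δ ≤ c / 2 := by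
    rw [hδ, mul_div_assoc', div_le_div_iff₀ (by positivity) (by norm_num)]
    nlinarith
  have h5 : (C.m : ℝ) ^ 2 * δ * sn ξ ≤ c / 2 * sn ξ := mul_le_mul_of_nonneg_right h4 (sn_nonneg ξ)
  linarith

end Pool.Agent.Helper73.KP
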