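import Pool.Agent.Helper73.KP.M_BXVa

/-!
# Project KP: module BXV (insertion of the Fourier expansion, dyadic split of the frequencies)
-/

set_option autoImplicit false

noncomputable section

namespace Pool.Agent.Helper73.KP

open Finset Filter Topology
open Pool.Agent.Helper93.KP
open Pool.Agent.Helper15.AB (ee Kl StDB StMT)
open Pool.Agent.Helper9.TW (iv)
open Pool.Agent.Helper15.AB.hPQ (ee_norm)
open Pool.Agent.Helper15.TW (box_log)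

/-- the summand of the bilinear form -/
private def Gm (e₀ i A U' μ : ℕ) (x₀ : ℤ) (X : ℝ) (be al' be' : ℕ → ℝ) (φ : ℕ → ℕ → ℂ) (x h n y : ℕ) :
    ℂ :=
  open Classical in
  if (x ∈ Ioc (A / 2) A ∧ y ∈ Ioc (U' / 2) U' ∧
      h ∈ (Icc 1 (e₀ * (x * y) / 2)).filter (fun h => Nat.log 2 h = i)) ∧
      Nat.Coprime (μ * n) e₀ ∧ Nat.Coprime e₀ (x * y) then
    ((be n * al' x * be' y : ℝ) : ℂ) * φ (x * y) h / (X : ℂ) *
      ee (((h * x₀ * (iv e₀ (μ * n) : ℤ) * (iv e₀ (x * y) : ℤ) : ℤ) : ℝ) / e₀)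
  else 0

private theorem Gm_zero {e₀ i A U' μ : ℕ} {x₀ : ℤ} {X : ℝ} {be al' be' : ℕ → ℝ} {φ : ℕ → ℕ → ℂ}
    {x h n y : ℕ} (hh : ¬ (x ∈ Ioc (A / 2) A ∧ y ∈ Ioc (U' / 2) U' ∧
      h ∈ (Icc 1 (e₀ * (x * y) / 2)).filter (fun h => Nat.log 2 h = i))) :
    Gm e₀ i A U' μ x₀ X be al' be' φ x h n y = 0 := by
  unfold Gm
  rw [if_neg]
  exact fun h => hh h.1

private theorem iv_mod {e m n μ : ℕ} (h : m % e = μ) : iv e (m * n) = iv e (μ * n) := by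
  unfold iv
  have : ((m * n : ℕ) : ZMod e) = ((μ * n : ℕ) : ZMod e) := by
    rw [Nat.cast_mul, Nat.cast_mul, ← h, ZMod.natCast_mod]
  rw [this]

/-- the pointwise identity -/
private theorem Tm_eq (e₀ k' i A U' μ : ℕ) (x₀ c : ℤ) (X : ℝ) (hX : (X : ℂ) ≠ 0) (al be al' be' : ℕ → ℝ)
    (φ : ℕ → ℕ → ℂ) (m n x y h : ℕ) (hm : m % e₀ = μ)
    (hh : x ∈ Ioc (A / 2) A ∧ y ∈ Ioc (U' / 2) U' ∧
      h ∈ (Icc 1 (e₀ * (x * y) / 2)).filter (fun h => Nat.log 2 h = i)) :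
    BxvT e₀ k' x₀ c al be al' be' φ m n x y h =
      (X : ℂ) * (if Squarefree (x * y) ∧ Nat.Coprime (x * y) (e₀ * (e₀ * k') * m * n) then
        (al m : ℂ) * Gm e₀ i A U' μ x₀ X be al' be' φ x h n y *
          ee (((h * c * (iv (x * y) (e₀ * k' * m * n) : ℤ) : ℤ) : ℝ) / ((x * y : ℕ) : ℝ)) else 0) := by
  unfold BxvT
  by_cases h1 : Nat.Coprime (m * n) e₀ ∧ Squarefree (x * y) ∧ Nat.Coprime (x * y) (e₀ * k' * (m * n))
  · rw [bxv_cd_one h1, if_pos ⟨h1.2.1, (bxv_cop_iff _ _ _ _ _).2 h1.2.2⟩]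
    unfold Gm BxvP
    rw [if_pos ⟨hh, (bxv_mod_cop hm).2 h1.1, bxv_cop_of h1.2.2⟩, iv_mod hm, ← mul_assoc (e₀ * k') m n]
    push_cast
    field_simp
  · rw [bxv_cd_zero h1]
    by_cases h2 : Squarefree (x * y) ∧ Nat.Coprime (x * y) (e₀ * (e₀ * k') * m * n)
    · rw [if_pos h2]
      have h3 : ¬ Nat.Coprime (m * n) e₀ := fun h4 =>
        h1 ⟨h4, h2.1, (bxv_cop_iff _ _ _ _ _).1 h2.2⟩
      have h5 : Gm e₀ i A U' μ x₀ X be al' be' φ x h n y = 0 := by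
        unfold Gm
        rw [if_neg]
        intro h6
        exact h3 ((bxv_mod_cop hm).1 h6.2.1)
      rw [h5]
      simp
    · rw [if_neg h2]
      simp

private def RR (M' A U U' E : ℝ) : ℝ :=
  M' * √(A * U * E) +
    √M' * A ^ (5 / 4 : ℝ) * (U * U' ^ (3 / 2 : ℝ) + U ^ (3 / 4 : ℝ) * U' ^ (7 / 4 : ℝ)) +
    M' * A ^ (3 / 4 : ℝ) * (U * U' + U ^ (3 / 4 : ℝ) * U' ^ (5 / 4 : ℝ))

private theorem RR_nonneg (M' A U U' E : ℝ) (hM : 0 ≤ M') (hA : 0 ≤ A) (hU : 0 ≤ U) (hU' : 0 ≤ U') :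
    0 ≤ RR M' A U U' E := by
  unfold RR
  positivity

/-- the identity for one `m` -/
private theorem msum (e₀ k' i A U U' μ : ℕ) (x₀ c : ℤ) (X : ℝ) (hX : (X : ℂ) ≠ 0) (al be al' be' : ℕ → ℝ)
    (φ : ℕ → ℕ → ℂ) (m : ℕ) (hm : m % e₀ = μ) :
    ∑ n ∈ Icc 1 U, ∑ x ∈ Ioc (A / 2) A, ∑ y ∈ Ioc (U' / 2) U',
      ∑ h ∈ (Icc 1 (e₀ * (x * y) / 2)).filter (fun h => Nat.log 2 h = i),
        BxvT e₀ k' x₀ c al be al' be' φ m n x y h =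
    (X : ℂ) * ∑ x ∈ Icc 1 A, ∑ h ∈ Icc 1 (2 ^ (i + 1)), ∑ n ∈ Icc 1 U,
      ∑ y ∈ (Icc 1 U').filter (fun y => Squarefree (x * y) ∧
          Nat.Coprime (x * y) (e₀ * (e₀ * k') * m * n)),
        (al m : ℂ) * Gm e₀ i A U' μ x₀ X be al' be' φ x h n y *
          ee (((h * c * (iv (x * y) (e₀ * k' * m * n) : ℤ) : ℤ) : ℝ) / ((x * y : ℕ) : ℝ)) := by
  obtain ⟨G, hG⟩ : ∃ G : ℕ → ℕ → ℕ → ℕ → ℂ, G = fun x h n y =>
      if Squarefree (x * y) ∧ Nat.Coprime (x * y) (e₀ * (e₀ * k') * m * n) then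
        (al m : ℂ) * Gm e₀ i A U' μ x₀ X be al' be' φ x h n y *
          ee (((h * c * (iv (x * y) (e₀ * k' * m * n) : ℤ) : ℤ) : ℝ) / ((x * y : ℕ) : ℝ)) else 0 :=
    ⟨_, rfl⟩
  have hG0 : ∀ x h n y, ¬ (x ∈ Ioc (A / 2) A ∧ y ∈ Ioc (U' / 2) U' ∧
      h ∈ (Icc 1 (e₀ * (x * y) / 2)).filter (fun h => Nat.log 2 h = i)) → (X : ℂ) * G x h n y = 0 := by
    intro x h n y hh
    rw [hG]
    simp only [Gm_zero hh]
    simp
  have hR : ∑ x ∈ Icc 1 A, ∑ h ∈ Icc 1 (2 ^ (i + 1)), ∑ n ∈ Icc 1 U,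
      ∑ y ∈ (Icc 1 U').filter (fun y => Squarefree (x * y) ∧
          Nat.Coprime (x * y) (e₀ * (e₀ * k') * m * n)),
        (al m : ℂ) * Gm e₀ i A U' μ x₀ X be al' be' φ x h n y *
          ee (((h * c * (iv (x * y) (e₀ * k' * m * n) : ℤ) : ℤ) : ℝ) / ((x * y : ℕ) : ℝ)) =
      ∑ n ∈ Icc 1 U, ∑ x ∈ Icc 1 A, ∑ y ∈ Icc 1 U', ∑ h ∈ Icc 1 (2 ^ (i + 1)), G x h n y := by
    have h1 : ∑ x ∈ Icc 1 A, ∑ h ∈ Icc 1 (2 ^ (i + 1)), ∑ n ∈ Icc 1 U,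
      ∑ y ∈ (Icc 1 U').filter (fun y => Squarefree (x * y) ∧
          Nat.Coprime (x * y) (e₀ * (e₀ * k') * m * n)),
        (al m : ℂ) * Gm e₀ i A U' μ x₀ X be al' be' φ x h n y *
          ee (((h * c * (iv (x * y) (e₀ * k' * m * n) : ℤ) : ℤ) : ℝ) / ((x * y : ℕ) : ℝ)) =
        ∑ x ∈ Icc 1 A, ∑ h ∈ Icc 1 (2 ^ (i + 1)), ∑ n ∈ Icc 1 U, ∑ y ∈ Icc 1 U', G x h n y := by
      rw [hG]
      refine Finset.sum_congr rfl fun x _ => Finset.sum_congr rfl fun h _ =>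
        Finset.sum_congr rfl fun n _ => ?_
      rw [Finset.sum_filter]
    rw [h1, Finset.sum_comm (s := Icc 1 U) (t := Icc 1 A)]
    refine Finset.sum_congr rfl fun x _ => ?_
    rw [Finset.sum_comm]
    refine Finset.sum_congr rfl fun n _ => ?_
    rw [Finset.sum_comm]
  rw [hR, Finset.mul_sum]
  refine Finset.sum_congr rfl fun n _ => ?_
  rw [Finset.mul_sum]
  refine Eq.trans ?_ (Finset.sum_subset (s₁ := Ioc (A / 2) A) ?_ ?_)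
  · refine Finset.sum_congr rfl fun x hx => ?_
    rw [Finset.mul_sum]
    refine Eq.trans ?_ (Finset.sum_subset (s₁ := Ioc (U' / 2) U') ?_ ?_)
    · refine Finset.sum_congr rfl fun y hy => ?_
      rw [Finset.mul_sum]
      refine Eq.trans ?_ (Finset.sum_subset
        (s₁ := (Icc 1 (e₀ * (x * y) / 2)).filter (fun h => Nat.log 2 h = i)) ?_ ?_)
      · refine Finset.sum_congr rfl fun h hh => ?_
        rw [hG]
        exact Tm_eq e₀ k' i A U' μ x₀ c X hX al be al' be' φ m n x y h hm ⟨hx, hy, hh⟩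
      · intro h hh
        rw [Finset.mem_filter, Finset.mem_Icc] at hh
        rw [Finset.mem_Icc]
        refine ⟨hh.1.1, ?_⟩
        rw [← hh.2]
        exact (Nat.lt_pow_succ_log_self (by norm_num) h).le
      · intro h _ hh
        exact hG0 x h n y fun h1 => hh h1.2.2
    · intro y hy
      rw [Finset.mem_Ioc] at hy
      rw [Finset.mem_Icc]
      omega
    · intro y _ hy
      refine Finset.mul_sum _ _ _ |>.trans ?_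
      exact Finset.sum_eq_zero fun h _ => hG0 x h n y fun h1 => hy h1.2.1
  · intro x hx
    rw [Finset.mem_Ioc] at hx
    rw [Finset.mem_Icc]
    omega
  · intro x _ hx
    rw [Finset.mul_sum]
    refine Finset.sum_eq_zero fun y _ => ?_
    rw [Finset.mul_sum]
    exact Finset.sum_eq_zero fun h _ => hG0 x h n y fun h1 => hx h1.1

/-- one part: the frequencies with `log₂ h = i` and the `m` in one class -/
private theorem part (C₁ ε : ℝ) (hC₁ : 0 < C₁) (hB : BxvB C₁ ε)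
    (e₀ k' M₁ M₂ A U U' E₁ E₂ : ℕ) (c x₀ : ℤ) (W : ℝ) (al be al' be' : ℕ → ℝ)
    (he : 1 ≤ e₀) (hk : 1 ≤ k') (hc : c ≠ 0) (hM : M₁ ≤ M₂) (hA : 1 ≤ A) (hU : 1 ≤ U) (hU' : 1 ≤ U')
    (hE : E₁ ≤ E₂) (hW : 1 ≤ W) (hM2 : (M₂ : ℝ) ≤ W) (hAW : (e₀ : ℝ) * A * U' ≤ W) (hUW : (U : ℝ) ≤ W)
    (hal : ∀ m, |al m| ≤ 1) (hbe : ∀ m, |be m| ≤ 1) (hal' : ∀ m, |al' m| ≤ 1)
    (hbe' : ∀ m, |be' m| ≤ 1) (φ : ℕ → ℕ → ℂ)
    (hφ : ∀ q' : ℕ, 1 ≤ q' → Nat.Coprime e₀ q' → ∀ h ∈ Icc 1 (e₀ * q' / 2),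
      ‖φ q' h‖ ≤ min (((E₂ : ℝ) - E₁) / (e₀ * q')) (1 / (2 * h))) (i μ : ℕ) :
    ‖∑ m ∈ (Ioc M₁ M₂).filter (fun m => m % e₀ = μ), ∑ n ∈ Icc 1 U, ∑ x ∈ Ioc (A / 2) A,
      ∑ y ∈ Ioc (U' / 2) U', ∑ h ∈ (Icc 1 (e₀ * (x * y) / 2)).filter (fun h => Nat.log 2 h = i),
        BxvT e₀ k' x₀ c al be al' be' φ m n x y h‖ ≤
      2 * (C₁ ^ (1 / 2 : ℝ) * W ^ (ε / 2) * |(c : ℝ)| ^ (1 / 4 : ℝ)) *
        RR ((M₂ : ℝ) - M₁ + 1) A U U' ((E₂ : ℝ) - E₁) := by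
  have hM' : (0 : ℝ) ≤ (M₂ : ℝ) - M₁ + 1 := by
    have : (M₁ : ℝ) ≤ M₂ := by exact_mod_cast hM
    linarith
  have hE' : (0 : ℝ) ≤ (E₂ : ℝ) - E₁ := by
    have : (E₁ : ℝ) ≤ E₂ := by exact_mod_cast hE
    linarith
  have he1 : (1 : ℝ) ≤ e₀ := by exact_mod_cast he
  have hA1 : (1 : ℝ) ≤ A := by exact_mod_cast hA
  have hU1 : (1 : ℝ) ≤ U := by exact_mod_cast hU
  have hU'1 : (1 : ℝ) ≤ U' := by exact_mod_cast hU'
  have hR0 := RR_nonneg ((M₂ : ℝ) - M₁ + 1) A U U' ((E₂ : ℝ) - E₁) hM' (by linarith) (by linarith)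
    (by linarith)
  have hB0 : 0 ≤ 2 * (C₁ ^ (1 / 2 : ℝ) * W ^ (ε / 2) * |(c : ℝ)| ^ (1 / 4 : ℝ)) *
        RR ((M₂ : ℝ) - M₁ + 1) A U U' ((E₂ : ℝ) - E₁) := by
    have : 0 ≤ W := by linarith
    positivity
  by_cases hi : 2 ^ (i + 1) ≤ e₀ * A * U'
  swap
  · have h0 : ∑ m ∈ (Ioc M₁ M₂).filter (fun m => m % e₀ = μ), ∑ n ∈ Icc 1 U, ∑ x ∈ Ioc (A / 2) A,
      ∑ y ∈ Ioc (U' / 2) U', ∑ h ∈ (Icc 1 (e₀ * (x * y) / 2)).filter (fun h => Nat.log 2 h = i),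
        BxvT e₀ k' x₀ c al be al' be' φ m n x y h = 0 := by
      refine Finset.sum_eq_zero fun m _ => Finset.sum_eq_zero fun n _ =>
        Finset.sum_eq_zero fun x hx => Finset.sum_eq_zero fun y hy =>
        Finset.sum_eq_zero fun h hh => ?_
      exfalso
      rw [Finset.mem_filter, Finset.mem_Icc] at hh
      rw [Finset.mem_Ioc] at hx hy
      apply hi
      have h1 : 2 ^ i ≤ h := by
        rw [← hh.2]
        exact Nat.pow_log_le_self 2 (by omega)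
      have h2 : e₀ * (x * y) ≤ e₀ * A * U' := by
        rw [mul_assoc]
        exact Nat.mul_le_mul_left _ (Nat.mul_le_mul hx.2 hy.2)
      rw [pow_succ]
      omega
    rw [h0, norm_zero]
    exact hB0
  obtain ⟨X, hX⟩ : ∃ X : ℝ, X = min (4 * ((E₂ : ℝ) - E₁) / (e₀ * A * U')) (1 / (2 * 2 ^ i)) :=
    ⟨_, rfl⟩
  have hX0 : 0 ≤ X := by rw [hX]; exact le_min (by positivity) (by positivity)
  have hcX : ∀ x ∈ Ioc (A / 2) A, ∀ y ∈ Ioc (U' / 2) U', Nat.Coprime e₀ (x * y) →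
      ∀ h ∈ (Icc 1 (e₀ * (x * y) / 2)).filter (fun h => Nat.log 2 h = i), ‖φ (x * y) h‖ ≤ X := by
    intro x hx y hy hxy h hh
    rw [Finset.mem_filter] at hh
    rw [Finset.mem_Ioc] at hx hy
    have hh1 := Finset.mem_Icc.1 hh.1
    have hx1 : (A : ℝ) ≤ 2 * x := by
      have : A ≤ 2 * x := by omega
      exact_mod_cast this
    have hy1 : (U' : ℝ) ≤ 2 * y := by
      have : U' ≤ 2 * y := by omega
      exact_mod_cast this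
    have hxp : 1 ≤ x := by omega
    have hyp : 1 ≤ y := by omega
    have hx0 : (1 : ℝ) ≤ x := by exact_mod_cast hxp
    have hy0 : (1 : ℝ) ≤ y := by exact_mod_cast hyp
    rw [hX]
    refine (hφ (x * y) (Nat.mul_pos hxp hyp) hxy h hh.1).trans (min_le_min ?_ ?_)
    · rw [div_le_div_iff₀ (by positivity) (by positivity)]
      push_cast
      have h1 : (A : ℝ) * U' ≤ 4 * (x * y) := by
        calc (A : ℝ) * U' ≤ (2 * x) * (2 * y) := mul_le_mul hx1 hy1 (by linarith) (by positivity)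
          _ = 4 * (x * y) := by ring
      have h2 : 0 ≤ ((E₂ : ℝ) - E₁) * e₀ := by positivity
      calc ((E₂ : ℝ) - E₁) * (e₀ * A * U') = ((E₂ : ℝ) - E₁) * e₀ * (A * U') := by ring
        _ ≤ ((E₂ : ℝ) - E₁) * e₀ * (4 * (x * y)) := mul_le_mul_of_nonneg_left h1 h2
        _ = 4 * ((E₂ : ℝ) - E₁) * (e₀ * (x * y)) := by ring
    · apply one_div_le_one_div_of_le (by positivity)
      have h1 : 2 ^ i ≤ h := by
        rw [← hh.2]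
        exact Nat.pow_log_le_self 2 (by omega)
      have : ((2 ^ i : ℕ) : ℝ) ≤ h := by exact_mod_cast h1
      push_cast at this
      linarith
  rcases hX0.eq_or_lt with hXz | hXpos
  · have h0 : ∑ m ∈ (Ioc M₁ M₂).filter (fun m => m % e₀ = μ), ∑ n ∈ Icc 1 U, ∑ x ∈ Ioc (A / 2) A,
      ∑ y ∈ Ioc (U' / 2) U', ∑ h ∈ (Icc 1 (e₀ * (x * y) / 2)).filter (fun h => Nat.log 2 h = i),
        BxvT e₀ k' x₀ c al be al' be' φ m n x y h = 0 := by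
      refine Finset.sum_eq_zero fun m _ => Finset.sum_eq_zero fun n _ =>
        Finset.sum_eq_zero fun x hx => Finset.sum_eq_zero fun y hy =>
        Finset.sum_eq_zero fun h hh => ?_
      unfold BxvT
      by_cases h1 : Nat.Coprime (m * n) e₀ ∧ Squarefree (x * y) ∧
          Nat.Coprime (x * y) (e₀ * k' * (m * n))
      · have h2 := hcX x hx y hy (bxv_cop_of h1.2.2) h hh
        rw [← hXz] at h2
        rw [norm_le_zero_iff.1 h2]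
        simp
      · rw [bxv_cd_zero h1]
        simp
    rw [h0, norm_zero]
    exact hB0
  have hXc : (X : ℂ) ≠ 0 := by exact_mod_cast hXpos.ne'
  have hga : ∀ x h n y, ‖Gm e₀ i A U' μ x₀ X be al' be' φ x h n y‖ ≤ 1 := by
    intro x h n y
    unfold Gm
    split_ifs with hh
    · rw [norm_mul, ee_norm, mul_one, norm_div, norm_mul, Complex.norm_real, Complex.norm_real,
        Real.norm_of_nonneg hX0, div_le_one hXpos]
      have h1 := hcX x hh.1.1 y hh.1.2.1 hh.2.2 h hh.1.2.2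
      have h2 : ‖be n * al' x * be' y‖ ≤ 1 := by
        rw [Real.norm_eq_abs, abs_mul, abs_mul]
        exact mul_le_one₀ (mul_le_one₀ (hbe n) (abs_nonneg _) (hal' x)) (abs_nonneg _) (hbe' y)
      calc ‖be n * al' x * be' y‖ * ‖φ (x * y) h‖ ≤ 1 * X :=
            mul_le_mul h2 h1 (norm_nonneg _) (by norm_num)
        _ = X := one_mul X
    · rw [norm_zero]
      norm_num
  rw [Finset.sum_congr rfl (fun m hm => msum e₀ k' i A U U' μ x₀ c X hXc al be al' be' φ m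
    (Finset.mem_filter.1 hm).2), ← Finset.mul_sum, norm_mul, Complex.norm_real,
    Real.norm_of_nonneg hX0]
  have hHr : ((2 ^ (i + 1) : ℕ) : ℝ) = 2 * 2 ^ i := by push_cast; ring
  have hAle : (A : ℝ) ≤ e₀ * A * U' := by
    have h1 : (A : ℝ) ≤ e₀ * A := by nlinarith
    have h2 : 0 ≤ (e₀ : ℝ) * A := by positivity
    nlinarith
  have hUle : (U' : ℝ) ≤ e₀ * A * U' := by
    have h1 : (1 : ℝ) ≤ e₀ * A := by nlinarith
    nlinarith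
  have hHle : ((2 ^ (i + 1) : ℕ) : ℝ) ≤ W := by
    refine le_trans ?_ hAW
    exact_mod_cast hi
  have hmain := hB e₀ μ (e₀ * k') M₁ M₂ A (2 ^ (i + 1)) U U' c W (fun m => (al m : ℂ))
    (Gm e₀ i A U' μ x₀ X be al' be' φ) he (Nat.mul_pos he hk) hc hM hA (Nat.one_le_two_pow) hU hU' hW
    hM2 (hAle.trans hAW) hHle hUW (hUle.trans hAW)
    (by
      intro m
      simp only [Complex.norm_real, Real.norm_eq_abs]
      exact hal m) hga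
  refine (pow_le_pow_iff_left₀ (by positivity) hB0 (two_ne_zero)).1 ?_
  rw [mul_pow]
  refine (mul_le_mul_of_nonneg_left hmain (sq_nonneg X)).trans ?_
  rw [hHr]
  unfold RR
  refine bxv_bnd C₁ ε W |(c : ℝ)| ((M₂ : ℝ) - M₁ + 1) A U U' ((E₂ : ℝ) - E₁) e₀ X (2 * 2 ^ i) hC₁ hW
    (abs_nonneg _) hM' hA1 hU1 hU'1 hE' he1 hX0 ?_ ?_ ?_
  · have : (1 : ℝ) ≤ 2 ^ i := one_le_pow₀ (by norm_num)
    linarith
  · have h1 : X ≤ 1 / (2 * 2 ^ i) := by rw [hX]; exact min_le_right _ _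
    calc X * (2 * 2 ^ i) ≤ 1 / (2 * 2 ^ i) * (2 * 2 ^ i) :=
          mul_le_mul_of_nonneg_right h1 (by positivity)
      _ = 1 := by field_simp
  · rw [hX]
    exact min_le_left _ _

private theorem comm4 (L : ℕ) (S : Finset ℕ) (N : Finset ℕ) (Xs Ys : Finset ℕ) (g : ℕ → ℕ → ℕ → ℕ → ℕ → ℂ) :
    ∑ m ∈ S, ∑ n ∈ N, ∑ x ∈ Xs, ∑ y ∈ Ys, ∑ i ∈ range L, g m n x y i =
      ∑ i ∈ range L, ∑ m ∈ S, ∑ n ∈ N, ∑ x ∈ Xs, ∑ y ∈ Ys, g m n x y i := by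
  calc ∑ m ∈ S, ∑ n ∈ N, ∑ x ∈ Xs, ∑ y ∈ Ys, ∑ i ∈ range L, g m n x y i
      = ∑ m ∈ S, ∑ n ∈ N, ∑ x ∈ Xs, ∑ i ∈ range L, ∑ y ∈ Ys, g m n x y i :=
        Finset.sum_congr rfl fun m _ => Finset.sum_congr rfl fun n _ =>
          Finset.sum_congr rfl fun x _ => Finset.sum_comm
    _ = ∑ m ∈ S, ∑ n ∈ N, ∑ i ∈ range L, ∑ x ∈ Xs, ∑ y ∈ Ys, g m n x y i :=
        Finset.sum_congr rfl fun m _ => Finset.sum_congr rfl fun n _ => Finset.sum_comm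
    _ = ∑ m ∈ S, ∑ i ∈ range L, ∑ n ∈ N, ∑ x ∈ Xs, ∑ y ∈ Ys, g m n x y i :=
        Finset.sum_congr rfl fun m _ => Finset.sum_comm
    _ = ∑ i ∈ range L, ∑ m ∈ S, ∑ n ∈ N, ∑ x ∈ Xs, ∑ y ∈ Ys, g m n x y i := Finset.sum_comm

/-- all frequencies -/
private theorem full (C₁ ε : ℝ) (hC₁ : 0 < C₁) (hB : BxvB C₁ ε)
    (e₀ k' M₁ M₂ A U U' E₁ E₂ : ℕ) (c x₀ : ℤ) (W : ℝ) (al be al' be' : ℕ → ℝ)
    (he : 1 ≤ e₀) (hk : 1 ≤ k') (hc : c ≠ 0) (hM : M₁ ≤ M₂) (hA : 1 ≤ A) (hU : 1 ≤ U) (hU' : 1 ≤ U')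
    (hE : E₁ ≤ E₂) (hW : 1 ≤ W) (hM2 : (M₂ : ℝ) ≤ W) (hAW : (e₀ : ℝ) * A * U' ≤ W) (hUW : (U : ℝ) ≤ W)
    (hal : ∀ m, |al m| ≤ 1) (hbe : ∀ m, |be m| ≤ 1) (hal' : ∀ m, |al' m| ≤ 1)
    (hbe' : ∀ m, |be' m| ≤ 1) (φ : ℕ → ℕ → ℂ)
    (hφ : ∀ q' : ℕ, 1 ≤ q' → Nat.Coprime e₀ q' → ∀ h ∈ Icc 1 (e₀ * q' / 2),
      ‖φ q' h‖ ≤ min (((E₂ : ℝ) - E₁) / (e₀ * q')) (1 / (2 * h))) :
    ‖∑ m ∈ Ioc M₁ M₂, ∑ n ∈ Icc 1 U, ∑ x ∈ Ioc (A / 2) A, ∑ y ∈ Ioc (U' / 2) U',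
        ∑ h ∈ Icc 1 (e₀ * (x * y) / 2), BxvT e₀ k' x₀ c al be al' be' φ m n x y h‖ ≤
      ((Nat.log 2 (e₀ * A * U') : ℝ) + 1) * (e₀ *
        (2 * (C₁ ^ (1 / 2 : ℝ) * W ^ (ε / 2) * |(c : ℝ)| ^ (1 / 4 : ℝ)) *
          RR ((M₂ : ℝ) - M₁ + 1) A U U' ((E₂ : ℝ) - E₁))) := by
  have h1 : ∑ m ∈ Ioc M₁ M₂, ∑ n ∈ Icc 1 U, ∑ x ∈ Ioc (A / 2) A, ∑ y ∈ Ioc (U' / 2) U',
        ∑ h ∈ Icc 1 (e₀ * (x * y) / 2), BxvT e₀ k' x₀ c al be al' be' φ m n x y h =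
      ∑ m ∈ Ioc M₁ M₂, ∑ n ∈ Icc 1 U, ∑ x ∈ Ioc (A / 2) A, ∑ y ∈ Ioc (U' / 2) U',
        ∑ i ∈ range (Nat.log 2 (e₀ * A * U') + 1),
          ∑ h ∈ (Icc 1 (e₀ * (x * y) / 2)).filter (fun h => Nat.log 2 h = i),
            BxvT e₀ k' x₀ c al be al' be' φ m n x y h := by
    refine Finset.sum_congr rfl fun m _ => Finset.sum_congr rfl fun n _ =>
      Finset.sum_congr rfl fun x hx => Finset.sum_congr rfl fun y hy => ?_
    symm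
    apply Finset.sum_fiberwise_of_maps_to
    intro h hh
    rw [Finset.mem_range, Nat.lt_succ_iff]
    apply Nat.log_mono_right
    rw [Finset.mem_Icc] at hh
    rw [Finset.mem_Ioc] at hx hy
    have h2 : e₀ * (x * y) ≤ e₀ * A * U' := by
      rw [mul_assoc]
      exact Nat.mul_le_mul_left _ (Nat.mul_le_mul hx.2 hy.2)
    omega
  rw [h1, comm4]
  refine (norm_sum_le _ _).trans ?_
  refine (Finset.sum_le_card_nsmul _ _ (e₀ *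
        (2 * (C₁ ^ (1 / 2 : ℝ) * W ^ (ε / 2) * |(c : ℝ)| ^ (1 / 4 : ℝ)) *
          RR ((M₂ : ℝ) - M₁ + 1) A U U' ((E₂ : ℝ) - E₁))) ?_).trans ?_
  · intro i _
    have hmaps : ∀ m ∈ Ioc M₁ M₂, m % e₀ ∈ range e₀ := by
      intro m _
      rw [Finset.mem_range]
      exact Nat.mod_lt _ (by omega)
    rw [← Finset.sum_fiberwise_of_maps_to hmaps]
    refine (norm_sum_le _ _).trans ?_
    refine (Finset.sum_le_card_nsmul _ _ _ (fun μ _ => part C₁ ε hC₁ hB e₀ k' M₁ M₂ A U U' E₁ E₂ c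
      x₀ W al be al' be' he hk hc hM hA hU hU' hE hW hM2 hAW hUW hal hbe hal' hbe' φ hφ i μ)).trans ?_
    rw [Finset.card_range, nsmul_eq_mul]
  · rw [Finset.card_range, nsmul_eq_mul]
    push_cast
    exact le_rfl

theorem hBXV (hF : StFRQ) (hB : StBIV) : StBXV := by
  intro ε hε
  obtain ⟨C₁, hC₁, hB'⟩ := hB ε hε
  obtain ⟨C₂, hC₂, hL⟩ := box_log (ε / 2) (by positivity)
  refine ⟨4 * C₂ * C₁ ^ (1 / 2 : ℝ), by positivity, ?_⟩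
  intro e₀ k' M₁ M₂ A U U' E₁ E₂ c x₀ W al be al' be' he hk hc hM hA hU hU' hE hW hM2 hAW hUW
    hal hbe hal' hbe'
  have hch : ∀ q' : ℕ, ∃ f f' : ℕ → ℂ, 1 ≤ q' → Nat.Coprime e₀ q' →
      (∀ h ∈ Icc 1 (e₀ * q' / 2), ‖f h‖ ≤ min (((E₂ : ℝ) - E₁) / (e₀ * q')) (1 / (2 * h)) ∧
        ‖f' h‖ ≤ min (((E₂ : ℝ) - E₁) / (e₀ * q')) (1 / (2 * h))) ∧
      ∀ (q k' : ℕ) (x₀ c : ℤ), Nat.Coprime q (e₀ * q') → Nat.Coprime k' q' →
        ((((Ioc E₁ E₂).filter (fun e : ℕ => (e₀ : ℤ) ∣ (q : ℤ) * e - x₀ ∧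
          (q' : ℤ) ∣ (k' : ℤ) * q * e - c)).card : ℕ) : ℂ) =
        ((((E₂ : ℝ) - E₁) / (e₀ * q') : ℝ) : ℂ) + ∑ h ∈ Icc 1 (e₀ * q' / 2),
          (f h * (ee (((h * x₀ * (iv e₀ q : ℤ) * (iv e₀ q' : ℤ) : ℤ) : ℝ) / e₀) *
              ee (((h * c * (iv q' (e₀ * k' * q) : ℤ) : ℤ) : ℝ) / q')) +
            f' h * (ee (((-(h * x₀ * (iv e₀ q : ℤ) * (iv e₀ q' : ℤ)) : ℤ) : ℝ) / e₀) *
              ee (((-(h * c * (iv q' (e₀ * k' * q) : ℤ)) : ℤ) : ℝ) / q'))) := by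
    intro q'
    by_cases h : 1 ≤ q' ∧ Nat.Coprime e₀ q'
    · obtain ⟨f, f', hf⟩ := hF e₀ q' E₁ E₂ he h.1 h.2 hE
      exact ⟨f, f', fun _ _ => hf⟩
    · exact ⟨0, 0, fun h1 h2 => absurd ⟨h1, h2⟩ h⟩
  choose f f' hff using hch
  have hexp : ((∑ m ∈ Ioc M₁ M₂, ∑ n ∈ Icc 1 U, ∑ x ∈ Ioc (A / 2) A, ∑ y ∈ Ioc (U' / 2) U',
    cd e₀ k' m n x y * (al m * be n * al' x * be' y) *
      ((((Ioc E₁ E₂).filter (fun e : ℕ => (e₀ : ℤ) ∣ ((m * n : ℕ) : ℤ) * e - x₀ ∧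
        ((x * y : ℕ) : ℤ) ∣ (k' : ℤ) * ((m * n : ℕ) : ℤ) * e - c)).card : ℝ) -
        ((E₂ : ℝ) - E₁) / (e₀ * (x * y : ℕ))) : ℝ) : ℂ) =
      (∑ m ∈ Ioc M₁ M₂, ∑ n ∈ Icc 1 U, ∑ x ∈ Ioc (A / 2) A, ∑ y ∈ Ioc (U' / 2) U',
        ∑ h ∈ Icc 1 (e₀ * (x * y) / 2), BxvT e₀ k' x₀ c al be al' be' f m n x y h) +
      ∑ m ∈ Ioc M₁ M₂, ∑ n ∈ Icc 1 U, ∑ x ∈ Ioc (A / 2) A, ∑ y ∈ Ioc (U' / 2) U',
        ∑ h ∈ Icc 1 (e₀ * (x * y) / 2), BxvT e₀ k' (-x₀) (-c) al be al' be' f' m n x y h := by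
    simp only [Complex.ofReal_sum, ← Finset.sum_add_distrib]
    refine Finset.sum_congr rfl fun m hm => Finset.sum_congr rfl fun n hn =>
      Finset.sum_congr rfl fun x hx => Finset.sum_congr rfl fun y hy => ?_
    by_cases h1 : Nat.Coprime (m * n) e₀ ∧ Squarefree (x * y) ∧
        Nat.Coprime (x * y) (e₀ * k' * (m * n))
    · have hxy : 1 ≤ x * y := by
        rw [Finset.mem_Ioc] at hx hy
        exact Nat.mul_pos (by omega) (by omega)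
      have hco := bxv_cop_of h1.2.2
      have h2 : Nat.Coprime (m * n) (e₀ * (x * y)) := by
        apply Nat.Coprime.mul_right h1.1
        exact (Nat.Coprime.coprime_mul_left_right h1.2.2).symm
      have h3 : Nat.Coprime k' (x * y) := by
        have h4 : Nat.Coprime (x * y) (e₀ * k') := Nat.Coprime.coprime_mul_right_right h1.2.2
        exact (Nat.Coprime.coprime_mul_left_right h4).symm
      have h5 := (hff (x * y) hxy hco).2 (m * n) k' x₀ c h2 h3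
      have h6 : (((((Ioc E₁ E₂).filter (fun e : ℕ => (e₀ : ℤ) ∣ ((m * n : ℕ) : ℤ) * e - x₀ ∧
          ((x * y : ℕ) : ℤ) ∣ (k' : ℤ) * ((m * n : ℕ) : ℤ) * e - c)).card : ℝ) -
          ((E₂ : ℝ) - E₁) / (e₀ * (x * y : ℕ)) : ℝ) : ℂ) =
          ∑ h ∈ Icc 1 (e₀ * (x * y) / 2), (f (x * y) h * BxvP e₀ k' x₀ c m n x y h +
            f' (x * y) h * BxvP e₀ k' (-x₀) (-c) m n x y h) := by
        rw [Complex.ofReal_sub, Complex.ofReal_natCast, h5, add_sub_cancel_left]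
        refine Finset.sum_congr rfl fun h _ => ?_
        unfold BxvP
        rw [show (h * (-x₀) * (iv e₀ (m * n) : ℤ) * (iv e₀ (x * y) : ℤ) : ℤ) =
            -(h * x₀ * (iv e₀ (m * n) : ℤ) * (iv e₀ (x * y) : ℤ)) by ring,
          show (h * (-c) * (iv (x * y) (e₀ * k' * (m * n)) : ℤ) : ℤ) =
            -(h * c * (iv (x * y) (e₀ * k' * (m * n)) : ℤ)) by ring]
      rw [Complex.ofReal_mul, h6, Finset.mul_sum]
      refine Finset.sum_congr rfl fun h _ => ?_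
      unfold BxvT
      ring
    · have h2 : ∀ (x₀ c : ℤ) (f : ℕ → ℕ → ℂ) (h : ℕ), BxvT e₀ k' x₀ c al be al' be' f m n x y h = 0 := by
        intro x₀ c f h
        unfold BxvT
        rw [bxv_cd_zero h1]
        simp
      rw [bxv_cd_zero h1]
      simp [h2]
  rw [← Real.norm_eq_abs, ← Complex.norm_real, hexp]
  refine (norm_add_le _ _).trans ?_
  have g1 := full C₁ ε hC₁ hB' e₀ k' M₁ M₂ A U U' E₁ E₂ c x₀ W al be al' be' he hk hc hM hA hU hU' hE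
    hW hM2 hAW hUW hal hbe hal' hbe' f (fun q' h1 h2 h hh => ((hff q' h1 h2).1 h hh).1)
  have g2 := full C₁ ε hC₁ hB' e₀ k' M₁ M₂ A U U' E₁ E₂ (-c) (-x₀) W al be al' be' he hk
    (neg_ne_zero.2 hc) hM hA hU hU' hE
    hW hM2 hAW hUW hal hbe hal' hbe' f' (fun q' h1 h2 h hh => ((hff q' h1 h2).1 h hh).2)
  have hcc : |((-c : ℤ) : ℝ)| = |(c : ℝ)| := by
    push_cast
    exact abs_neg _
  rw [hcc] at g2
  have hM' : (0 : ℝ) ≤ (M₂ : ℝ) - M₁ + 1 := by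
    have : (M₁ : ℝ) ≤ M₂ := by exact_mod_cast hM
    linarith
  have hR0 := RR_nonneg ((M₂ : ℝ) - M₁ + 1) A U U' ((E₂ : ℝ) - E₁) hM' (by positivity)
    (by positivity) (by positivity)
  have hW0 : 0 ≤ W := by linarith
  have hLL : ((Nat.log 2 (e₀ * A * U') : ℝ) + 1) ≤ C₂ * W ^ (ε / 2) := by
    refine (hL (e₀ * A * U') (Nat.mul_pos (Nat.mul_pos he hA) hU')).trans ?_
    apply mul_le_mul_of_nonneg_left _ hC₂.le
    apply Real.rpow_le_rpow (by positivity) _ (by positivity)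
    push_cast
    exact hAW
  have hWW : W ^ ε = W ^ (ε / 2) * W ^ (ε / 2) := by
    rw [← Real.rpow_add (by linarith)]
    congr 1
    ring
  obtain ⟨K, hK⟩ : ∃ K : ℝ, K = 2 * (C₁ ^ (1 / 2 : ℝ) * W ^ (ε / 2) * |(c : ℝ)| ^ (1 / 4 : ℝ)) *
          RR ((M₂ : ℝ) - M₁ + 1) A U U' ((E₂ : ℝ) - E₁) := ⟨_, rfl⟩
  have hK0 : 0 ≤ K := by rw [hK]; positivity
  rw [← hK] at g1 g2
  have g3 : ((Nat.log 2 (e₀ * A * U') : ℝ) + 1) * (e₀ * K) ≤ C₂ * W ^ (ε / 2) * (e₀ * K) :=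
    mul_le_mul_of_nonneg_right hLL (by positivity)
  have g4 : 2 * (C₂ * W ^ (ε / 2) * (e₀ * K)) = 4 * C₂ * C₁ ^ (1 / 2 : ℝ) * W ^ ε * e₀ *
      |(c : ℝ)| ^ (1 / 4 : ℝ) * RR ((M₂ : ℝ) - M₁ + 1) A U U' ((E₂ : ℝ) - E₁) := by
    rw [hK, hWW]
    ring
  unfold RR at g4
  rw [← g4]
  linarith

end Pool.Agent.Helper73.KP
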