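import Pool.Agent.Helper93.KP.St
import Pool.Agent.Helper15.TW.M_BOX

/-!
# Project KP: module BXV, first part (definitions, the inequality for one part)
-/

set_option autoImplicit false

noncomputable section

namespace Pool.Agent.Helper73.KP

open Finset Filter Topology
open Pool.Agent.Helper93.KP
open Pool.Agent.Helper15.AB (ee Kl StDB StMT)
open Pool.Agent.Helper9.TW (iv)
open Pool.Agent.Helper15.AB.hPQ (ee_norm)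
open Pool.Agent.Helper15.TW (box_log)

/-- the bilinear bound with its constant -/
def BxvB (C ε : ℝ) : Prop := ∀ (e μ g M₁ M₂ A H U U' : ℕ) (c : ℤ) (W : ℝ)
  (al : ℕ → ℂ) (ga : ℕ → ℕ → ℕ → ℕ → ℂ), 1 ≤ e → 1 ≤ g → c ≠ 0 → M₁ ≤ M₂ → 1 ≤ A → 1 ≤ H → 1 ≤ U →
  1 ≤ U' → 1 ≤ W → (M₂ : ℝ) ≤ W → (A : ℝ) ≤ W → (H : ℝ) ≤ W → (U : ℝ) ≤ W → (U' : ℝ) ≤ W →
  (∀ m, ‖al m‖ ≤ 1) → (∀ x h n y, ‖ga x h n y‖ ≤ 1) →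
  ‖∑ m ∈ (Ioc M₁ M₂).filter (fun m => m % e = μ), ∑ x ∈ Icc 1 A, ∑ h ∈ Icc 1 H, ∑ n ∈ Icc 1 U,
      ∑ y ∈ (Icc 1 U').filter (fun y => Squarefree (x * y) ∧ Nat.Coprime (x * y) (e * g * m * n)),
        al m * ga x h n y *
          ee (((h * c * (iv (x * y) (g * m * n) : ℤ) : ℤ) : ℝ) / ((x * y : ℕ) : ℝ))‖ ^ 2 ≤
    C * W ^ ε * √|(c : ℝ)| * (((M₂ : ℝ) - M₁ + 1) * A) *
      (((M₂ : ℝ) - M₁ + 1) * A * (H * U * U') +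
        (((H : ℝ) * U) ^ 2 + ((H : ℝ) * U) ^ (3 / 2 : ℝ) * √(U' : ℝ)) *
          ((A : ℝ) ^ (3 / 2 : ℝ) * (U' : ℝ) ^ 3 + ((M₂ : ℝ) - M₁ + 1) * √(A : ℝ) * (U' : ℝ) ^ 2))

theorem bxv_core (D X H h3 p q r s e : ℝ) (hD : 0 ≤ D) (hp : 0 ≤ p)
    (hq : 0 ≤ q) (hr : 0 ≤ r) (hs : 0 ≤ s) (he : 0 ≤ e) (h1 : (X * H) ^ 2 ≤ 1)
    (h2 : X ^ 2 * H * (p ^ 4 * r ^ 4) ≤ 4 * e ^ 2) (h4 : X ^ 2 * h3 ≤ 1) :
    X ^ 2 * (D * (s ^ 2 * p ^ 4) * (s ^ 2 * p ^ 4 * (H * q ^ 4 * r ^ 4) +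
      ((H * q ^ 4) ^ 2 + h3 * q ^ 6 * r ^ 2) * (p ^ 6 * (r ^ 4) ^ 3 + s ^ 2 * p ^ 2 * (r ^ 4) ^ 2))) ≤
    4 * D * (s ^ 2 * (p ^ 2 * q ^ 2 * e) + s * p ^ 5 * (q ^ 4 * r ^ 6 + q ^ 3 * r ^ 7) +
      s ^ 2 * p ^ 3 * (q ^ 4 * r ^ 4 + q ^ 3 * r ^ 5)) ^ 2 := by
  have e1 : X ^ 2 * (D * (s ^ 2 * p ^ 4) * (s ^ 2 * p ^ 4 * (H * q ^ 4 * r ^ 4) +
      ((H * q ^ 4) ^ 2 + h3 * q ^ 6 * r ^ 2) * (p ^ 6 * (r ^ 4) ^ 3 + s ^ 2 * p ^ 2 * (r ^ 4) ^ 2))) =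
      D * (s ^ 4 * p ^ 4 * q ^ 4 * (X ^ 2 * H * (p ^ 4 * r ^ 4)) +
        ((s * p ^ 5 * q ^ 4 * r ^ 6) ^ 2 + (s ^ 2 * p ^ 3 * q ^ 4 * r ^ 4) ^ 2) * (X * H) ^ 2 +
        ((s * p ^ 5 * q ^ 3 * r ^ 7) ^ 2 + (s ^ 2 * p ^ 3 * q ^ 3 * r ^ 5) ^ 2) * (X ^ 2 * h3)) := by
    ring
  rw [e1]
  have b1 : s ^ 4 * p ^ 4 * q ^ 4 * (X ^ 2 * H * (p ^ 4 * r ^ 4)) ≤
      s ^ 4 * p ^ 4 * q ^ 4 * (4 * e ^ 2) := mul_le_mul_of_nonneg_left h2 (by positivity)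
  have b2 : ((s * p ^ 5 * q ^ 4 * r ^ 6) ^ 2 + (s ^ 2 * p ^ 3 * q ^ 4 * r ^ 4) ^ 2) * (X * H) ^ 2 ≤
      ((s * p ^ 5 * q ^ 4 * r ^ 6) ^ 2 + (s ^ 2 * p ^ 3 * q ^ 4 * r ^ 4) ^ 2) * 1 :=
    mul_le_mul_of_nonneg_left h1 (by positivity)
  have b3 : ((s * p ^ 5 * q ^ 3 * r ^ 7) ^ 2 + (s ^ 2 * p ^ 3 * q ^ 3 * r ^ 5) ^ 2) * (X ^ 2 * h3) ≤
      ((s * p ^ 5 * q ^ 3 * r ^ 7) ^ 2 + (s ^ 2 * p ^ 3 * q ^ 3 * r ^ 5) ^ 2) * 1 :=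
    mul_le_mul_of_nonneg_left h4 (by positivity)
  have key : ∀ a₁ a₂ a₃ a₄ a₅ : ℝ, 0 ≤ a₁ → 0 ≤ a₂ → 0 ≤ a₃ → 0 ≤ a₄ → 0 ≤ a₅ →
      4 * a₁ ^ 2 + (a₂ ^ 2 + a₃ ^ 2) + (a₄ ^ 2 + a₅ ^ 2) ≤
        4 * (a₁ + (a₂ + a₄) + (a₃ + a₅)) ^ 2 := by
    intro a₁ a₂ a₃ a₄ a₅ g1 g2 g3 g4 g5
    have i1 := mul_nonneg g1 g2
    have i2 := mul_nonneg g1 g3
    have i3 := mul_nonneg g1 g4
    have i4 := mul_nonneg g1 g5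
    have i5 := mul_nonneg g2 g3
    have i6 := mul_nonneg g2 g4
    have i7 := mul_nonneg g2 g5
    have i8 := mul_nonneg g3 g4
    have i9 := mul_nonneg g3 g5
    have i10 := mul_nonneg g4 g5
    nlinarith [sq_nonneg a₂, sq_nonneg a₃, sq_nonneg a₄, sq_nonneg a₅]
  have k := key (s ^ 2 * (p ^ 2 * q ^ 2 * e)) (s * p ^ 5 * q ^ 4 * r ^ 6) (s ^ 2 * p ^ 3 * q ^ 4 * r ^ 4)
    (s * p ^ 5 * q ^ 3 * r ^ 7) (s ^ 2 * p ^ 3 * q ^ 3 * r ^ 5) (by positivity) (by positivity)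
    (by positivity) (by positivity) (by positivity)
  have e2 : 4 * D * (s ^ 2 * (p ^ 2 * q ^ 2 * e) + s * p ^ 5 * (q ^ 4 * r ^ 6 + q ^ 3 * r ^ 7) +
      s ^ 2 * p ^ 3 * (q ^ 4 * r ^ 4 + q ^ 3 * r ^ 5)) ^ 2 =
      D * (4 * (s ^ 2 * (p ^ 2 * q ^ 2 * e) + (s * p ^ 5 * q ^ 4 * r ^ 6 + s * p ^ 5 * q ^ 3 * r ^ 7) +
        (s ^ 2 * p ^ 3 * q ^ 4 * r ^ 4 + s ^ 2 * p ^ 3 * q ^ 3 * r ^ 5)) ^ 2) := by ring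
  rw [e2]
  apply mul_le_mul_of_nonneg_left _ hD
  refine le_trans ?_ k
  have e3 : s ^ 4 * p ^ 4 * q ^ 4 * (4 * e ^ 2) = 4 * (s ^ 2 * (p ^ 2 * q ^ 2 * e)) ^ 2 := by ring
  rw [e3] at b1
  linarith

theorem bxv_quart {a : ℝ} (ha : 0 ≤ a) (j : ℕ) {t : ℝ} (ht : t = (j : ℝ) / 4) :
    a ^ t = (a ^ (1 / 4 : ℝ)) ^ j := by
  rw [← Real.rpow_natCast, ← Real.rpow_mul ha, ht]
  congr 1
  ring

/-- the bound of one part -/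
theorem bxv_bnd (C₁ ε W c M' A U U' E e₀ X H : ℝ) (hC : 0 < C₁) (hW : 1 ≤ W) (hc : 0 ≤ c)
    (hM : 0 ≤ M') (hA : 1 ≤ A) (hU : 1 ≤ U) (hU' : 1 ≤ U') (hE : 0 ≤ E) (he : 1 ≤ e₀) (hX0 : 0 ≤ X)
    (hH1 : 1 ≤ H) (hXH : X * H ≤ 1) (hXE : X ≤ 4 * E / (e₀ * A * U')) :
    X ^ 2 * (C₁ * W ^ ε * √c * (M' * A) * (M' * A * (H * U * U') +
        ((H * U) ^ 2 + (H * U) ^ (3 / 2 : ℝ) * √U') *
          (A ^ (3 / 2 : ℝ) * U' ^ 3 + M' * √A * U' ^ 2))) ≤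
    (2 * (C₁ ^ (1 / 2 : ℝ) * W ^ (ε / 2) * c ^ (1 / 4 : ℝ)) * (M' * √(A * U * E) +
        √M' * A ^ (5 / 4 : ℝ) * (U * U' ^ (3 / 2 : ℝ) + U ^ (3 / 4 : ℝ) * U' ^ (7 / 4 : ℝ)) +
        M' * A ^ (3 / 4 : ℝ) * (U * U' + U ^ (3 / 4 : ℝ) * U' ^ (5 / 4 : ℝ)))) ^ 2 := by
  have hA0 : 0 ≤ A := by linarith
  have hU0 : 0 ≤ U := by linarith
  have hU'0 : 0 ≤ U' := by linarith
  have hH0 : 0 ≤ H := by linarith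
  have hW0 : 0 ≤ W := by linarith
  obtain ⟨p, hp⟩ : ∃ p : ℝ, p = A ^ (1 / 4 : ℝ) := ⟨_, rfl⟩
  obtain ⟨q, hq⟩ : ∃ p : ℝ, p = U ^ (1 / 4 : ℝ) := ⟨_, rfl⟩
  obtain ⟨r, hr⟩ : ∃ p : ℝ, p = U' ^ (1 / 4 : ℝ) := ⟨_, rfl⟩
  have hp0 : 0 ≤ p := by rw [hp]; positivity
  have hq0 : 0 ≤ q := by rw [hq]; positivity
  have hr0 : 0 ≤ r := by rw [hr]; positivity
  have A4 : A = p ^ 4 := by
    rw [hp, ← bxv_quart hA0 4 (t := 1) (by norm_num), Real.rpow_one]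
  have U4 : U = q ^ 4 := by
    rw [hq, ← bxv_quart hU0 4 (t := 1) (by norm_num), Real.rpow_one]
  have U'4 : U' = r ^ 4 := by
    rw [hr, ← bxv_quart hU'0 4 (t := 1) (by norm_num), Real.rpow_one]
  have A5 : A ^ (5 / 4 : ℝ) = p ^ 5 := by rw [hp, bxv_quart hA0 5 (by norm_num)]
  have A6 : A ^ (3 / 2 : ℝ) = p ^ 6 := by rw [hp, bxv_quart hA0 6 (by norm_num)]
  have A3 : A ^ (3 / 4 : ℝ) = p ^ 3 := by rw [hp, bxv_quart hA0 3 (by norm_num)]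
  have A2 : √A = p ^ 2 := by rw [Real.sqrt_eq_rpow, hp, bxv_quart hA0 2 (by norm_num)]
  have U3 : U ^ (3 / 4 : ℝ) = q ^ 3 := by rw [hq, bxv_quart hU0 3 (by norm_num)]
  have U6 : U ^ (3 / 2 : ℝ) = q ^ 6 := by rw [hq, bxv_quart hU0 6 (by norm_num)]
  have V2 : √U' = r ^ 2 := by rw [Real.sqrt_eq_rpow, hr, bxv_quart hU'0 2 (by norm_num)]
  have V6 : U' ^ (3 / 2 : ℝ) = r ^ 6 := by rw [hr, bxv_quart hU'0 6 (by norm_num)]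
  have V7 : U' ^ (7 / 4 : ℝ) = r ^ 7 := by rw [hr, bxv_quart hU'0 7 (by norm_num)]
  have V5 : U' ^ (5 / 4 : ℝ) = r ^ 5 := by rw [hr, bxv_quart hU'0 5 (by norm_num)]
  have hHU : (H * U) ^ (3 / 2 : ℝ) = H ^ (3 / 2 : ℝ) * q ^ 6 := by
    rw [Real.mul_rpow hH0 hU0, U6]
  have hs2 : M' = √M' ^ 2 := (Real.sq_sqrt hM).symm
  have hEs : E = √E ^ 2 := (Real.sq_sqrt hE).symm
  have hAUE : √(A * U * E) = p ^ 2 * q ^ 2 * √E := by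
    rw [Real.sqrt_mul (by positivity), Real.sqrt_mul hA0, A2, Real.sqrt_eq_rpow U, hq,
      bxv_quart hU0 2 (by norm_num)]
  -- the three hypotheses
  have h1 : (X * H) ^ 2 ≤ 1 := by
    have : 0 ≤ X * H := by positivity
    nlinarith
  have hX2 : X ^ 2 * H ≤ 4 * E / (A * U') := by
    have g1 : X ^ 2 * H ≤ X := by
      have : X ^ 2 * H = X * (X * H) := by ring
      rw [this]
      nlinarith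
    have g2 : 4 * E / (e₀ * A * U') ≤ 4 * E / (A * U') := by
      apply div_le_div_of_nonneg_left (by positivity) (by positivity)
      have : 0 ≤ A * U' := by positivity
      nlinarith
    linarith
  have h2 : X ^ 2 * H * (p ^ 4 * r ^ 4) ≤ 4 * √E ^ 2 := by
    rw [← A4, ← U'4, ← hEs]
    have g0 : 0 < A * U' := by positivity
    calc X ^ 2 * H * (A * U') ≤ 4 * E / (A * U') * (A * U') :=
          mul_le_mul_of_nonneg_right hX2 g0.le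
      _ = 4 * E := by field_simp
  have h4 : X ^ 2 * H ^ (3 / 2 : ℝ) ≤ 1 := by
    have g1 : H ^ (3 / 2 : ℝ) ≤ H ^ 2 := by
      rw [← Real.rpow_natCast]
      exact Real.rpow_le_rpow_of_exponent_le hH1 (by norm_num)
    calc X ^ 2 * H ^ (3 / 2 : ℝ) ≤ X ^ 2 * H ^ 2 := mul_le_mul_of_nonneg_left g1 (by positivity)
      _ = (X * H) ^ 2 := by ring
      _ ≤ 1 := h1
  have hmain := bxv_core (C₁ * W ^ ε * √c) X H (H ^ (3 / 2 : ℝ)) p q r (√M') (√E) (by positivity) hp0 hq0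
    hr0 (by positivity) (by positivity) h1 h2 h4
  have hL : (2 * (C₁ ^ (1 / 2 : ℝ) * W ^ (ε / 2) * c ^ (1 / 4 : ℝ))) ^ 2 = 4 * (C₁ * W ^ ε * √c) := by
    have g1 : (C₁ ^ (1 / 2 : ℝ)) ^ 2 = C₁ := by
      rw [← Real.rpow_natCast, ← Real.rpow_mul hC.le]
      norm_num
    have g2 : (W ^ (ε / 2)) ^ 2 = W ^ ε := by
      rw [← Real.rpow_natCast, ← Real.rpow_mul hW0]
      congr 1
      push_cast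
      ring
    have g3 : (c ^ (1 / 4 : ℝ)) ^ 2 = √c := by
      rw [← bxv_quart hc 2 (t := 1 / 2) (by norm_num), Real.sqrt_eq_rpow]
    calc (2 * (C₁ ^ (1 / 2 : ℝ) * W ^ (ε / 2) * c ^ (1 / 4 : ℝ))) ^ 2 =
        4 * ((C₁ ^ (1 / 2 : ℝ)) ^ 2 * (W ^ (ε / 2)) ^ 2 * (c ^ (1 / 4 : ℝ)) ^ 2) := by ring
      _ = 4 * (C₁ * W ^ ε * √c) := by rw [g1, g2, g3]
  rw [mul_pow (2 * (C₁ ^ (1 / 2 : ℝ) * W ^ (ε / 2) * c ^ (1 / 4 : ℝ))), hL, hAUE, A5, A3, A6, A2, U3,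
    V6, V7, V5, V2, hHU]
  have e1 : X ^ 2 * (C₁ * W ^ ε * √c * (M' * A) * (M' * A * (H * U * U') +
        ((H * U) ^ 2 + H ^ (3 / 2 : ℝ) * q ^ 6 * r ^ 2) *
          (p ^ 6 * U' ^ 3 + M' * p ^ 2 * U' ^ 2))) =
      X ^ 2 * (C₁ * W ^ ε * √c * (√M' ^ 2 * p ^ 4) * (√M' ^ 2 * p ^ 4 * (H * q ^ 4 * r ^ 4) +
      ((H * q ^ 4) ^ 2 + H ^ (3 / 2 : ℝ) * q ^ 6 * r ^ 2) *
        (p ^ 6 * (r ^ 4) ^ 3 + √M' ^ 2 * p ^ 2 * (r ^ 4) ^ 2))) := by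
    rw [← hs2, ← A4, ← U4, ← U'4]
  have e2 : M' * (p ^ 2 * q ^ 2 * √E) + √M' * p ^ 5 * (U * r ^ 6 + q ^ 3 * r ^ 7) +
        M' * p ^ 3 * (U * U' + q ^ 3 * r ^ 5) =
      √M' ^ 2 * (p ^ 2 * q ^ 2 * √E) + √M' * p ^ 5 * (q ^ 4 * r ^ 6 + q ^ 3 * r ^ 7) +
      √M' ^ 2 * p ^ 3 * (q ^ 4 * r ^ 4 + q ^ 3 * r ^ 5) := by
    rw [← hs2, ← U4, ← U'4]
  rw [e1, e2]
  exact hmain

def BxvP (e₀ k' : ℕ) (x₀ c : ℤ) (m n x y h : ℕ) : ℂ :=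
  ee (((h * x₀ * (iv e₀ (m * n) : ℤ) * (iv e₀ (x * y) : ℤ) : ℤ) : ℝ) / e₀) *
    ee (((h * c * (iv (x * y) (e₀ * k' * (m * n)) : ℤ) : ℤ) : ℝ) / ((x * y : ℕ) : ℝ))

def BxvT (e₀ k' : ℕ) (x₀ c : ℤ) (al be al' be' : ℕ → ℝ) (φ : ℕ → ℕ → ℂ) (m n x y h : ℕ) : ℂ :=
  ((cd e₀ k' m n x y * (al m * be n * al' x * be' y) : ℝ) : ℂ) * (φ (x * y) h * BxvP e₀ k' x₀ c m n x y h)

theorem bxv_cd_one {e k' m n x y : ℕ} (h : Nat.Coprime (m * n) e ∧ Squarefree (x * y) ∧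
    Nat.Coprime (x * y) (e * k' * (m * n))) : cd e k' m n x y = 1 := by
  unfold cd
  rw [if_pos h]

theorem bxv_cd_zero {e k' m n x y : ℕ} (h : ¬ (Nat.Coprime (m * n) e ∧ Squarefree (x * y) ∧
    Nat.Coprime (x * y) (e * k' * (m * n)))) : cd e k' m n x y = 0 := by
  unfold cd
  rw [if_neg h]

theorem bxv_cop_of {e k' m n x y : ℕ} (h : Nat.Coprime (x * y) (e * k' * (m * n))) :
    Nat.Coprime e (x * y) := by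
  have h1 : Nat.Coprime (x * y) (e * k') := Nat.Coprime.coprime_mul_right_right h
  exact (Nat.Coprime.coprime_mul_right_right h1).symm

theorem bxv_cop_iff (a e k' m n : ℕ) :
    Nat.Coprime a (e * (e * k') * m * n) ↔ Nat.Coprime a (e * k' * (m * n)) := by
  simp only [Nat.coprime_mul_iff_right]
  tauto

theorem bxv_mod_cop {e m n μ : ℕ} (h : m % e = μ) : Nat.Coprime (μ * n) e ↔ Nat.Coprime (m * n) e := by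
  subst h
  rw [Nat.coprime_mul_iff_left, Nat.coprime_mul_iff_left]
  have : Nat.Coprime (m % e) e ↔ Nat.Coprime m e := by
    rw [Nat.Coprime, Nat.Coprime, (Nat.mod_modEq m e).gcd_eq]
  rw [this]

end Pool.Agent.Helper73.KP
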